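import Pool.Agent.Helper29.TG.Two
import Pool.Agent.Helper30.RED.Plane

/-!
# Project TG2: all endomorphisms of the plane over the complex numbers
-/

set_option autoImplicit false

namespace Pool.Agent.Helper29.TG

open MvPolynomial
open Pool.Agent.Helper33.SS (SGood)
open Pool.Agent.Helper36 (iter)

/-- **Tower gaps for the plane.** -/
theorem tower_plane {d : ℕ} {f : Fin 3 → MvPolynomial (Fin 3) ℂ}
    (hf : Pool.Agent.Helper38.TQ.IsEndo (ν := 2) d f) {a : Fin 3 → ℂ} (ha : a ≠ 0)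
    {S : Set (MvPolynomial (Fin 3) ℂ)} (hS : ∀ g ∈ S, ∃ e, g.IsHomogeneous e) :
    SGood {n | ∀ g ∈ S, eval (iter f a n) g = 0} := by
  refine Pool.Agent.Helper30.RED.plane_induct (d := d) (N := 0) (fun _ _ => True) SGood
    (fun A => Pool.Agent.Helper33.SS.SGood.of_AP ⟨A, rfl⟩) (fun S T => sgood_inter) ?_ ?_ f Fin.elim0 a hf trivial ha hS
  · intro k _ _ _ K hK F W hF _
    exact ⟨∅, Set.finite_empty, fun _ _ _ _ _ _ => trivial⟩
  · intro f w a g e hfa _ haa hga hf _ ha hg
    exact two_algebraic hf.two_le f hf.hom hf.nz hfa a ha haa g hg hga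

end Pool.Agent.Helper29.TG
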