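import Pool.Agent.Helper29.TG.Defs

/-!
# Project TG: the sum over all absolute values
-/

set_option autoImplicit false

namespace Pool.Agent.Helper29.TG

open Height AdmissibleAbsValues

variable {K : Type} [Field K] [AdmissibleAbsValues K]

theorem FS.add {f g : AbsoluteValue K ℝ → ℝ} (hf : FS f) (hg : FS g) : FS (fun v => f v + g v) :=
  (Set.Finite.union hf hg).subset (Function.support_add _ _)

theorem FS.sub {f g : AbsoluteValue K ℝ → ℝ} (hf : FS f) (hg : FS g) : FS (fun v => f v - g v) :=
  (Set.Finite.union hf hg).subset (Function.support_sub _ _)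

theorem FS.mul_left (c : ℝ) {f : AbsoluteValue K ℝ → ℝ} (hf : FS f) : FS (fun v => c * f v) := by
  refine Set.Finite.subset hf fun v hv => ?_
  rw [Function.mem_support] at hv ⊢
  exact right_ne_zero_of_mul hv

theorem FS.zero : FS (fun _ : AbsoluteValue K ℝ => (0 : ℝ)) := by
  unfold FS
  simp

theorem FS.mono {f g : AbsoluteValue K ℝ → ℝ} (hg : FS g)
    (h : ∀ v ∈ nonarchAbsVal (K := K), g v = 0 → f v = 0) : FS f := by
  refine Set.Finite.subset hg fun v hv => ?_
  rw [Function.mem_support] at hv ⊢
  exact fun h0 => hv (h v.val v.2 h0)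

theorem FS.congr {f g : AbsoluteValue K ℝ → ℝ} (hg : FS g)
    (h : ∀ v ∈ nonarchAbsVal (K := K), f v = g v) : FS f :=
  hg.mono fun v hv h0 => by rw [h v hv, h0]

theorem FS.sum {α : Type*} (s : Finset α) {f : α → AbsoluteValue K ℝ → ℝ}
    (hf : ∀ a ∈ s, FS (f a)) : FS (fun v => ∑ a ∈ s, f a v) := by
  classical
  induction s using Finset.induction_on with
  | empty => simpa using FS.zero
  | insert a s ha ih =>
    simp only [Finset.sum_insert ha]
    exact (hf a (Finset.mem_insert_self _ _)).add
      (ih fun b hb => hf b (Finset.mem_insert_of_mem hb))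

theorem FS.of_finite {f : AbsoluteValue K ℝ → ℝ} {B : Set (AbsoluteValue K ℝ)} (hB : B.Finite)
    (h : ∀ v ∈ nonarchAbsVal (K := K), v ∉ B → f v = 0) : FS f := by
  refine (hB.preimage (f := fun v : nonarchAbsVal (K := K) => v.val)
    Subtype.val_injective.injOn).subset fun v hv => ?_
  rw [Function.mem_support] at hv
  by_contra hcon
  exact hv (h v.val v.2 hcon)

/-- outside a finite set the function is `0` -/
theorem FS.exists_finite {f : AbsoluteValue K ℝ → ℝ} (hf : FS f) :
    ∃ B : Set (AbsoluteValue K ℝ), B.Finite ∧ ∀ v ∈ nonarchAbsVal (K := K), v ∉ B → f v = 0 := by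
  refine ⟨_, Set.Finite.image (fun v : nonarchAbsVal (K := K) => v.val) hf, fun v hv hvB => ?_⟩
  by_contra hcon
  exact hvB ⟨⟨v, hv⟩, hcon, rfl⟩

theorem ls_add {f g : AbsoluteValue K ℝ → ℝ} (hf : FS f) (hg : FS g) :
    ls (fun v => f v + g v) = ls f + ls g := by
  unfold ls
  rw [Multiset.sum_map_add, finsum_add_distrib hf hg]
  ring

theorem ls_mul_left (c : ℝ) (f : AbsoluteValue K ℝ → ℝ) :
    ls (fun v => c * f v) = c * ls f := by
  unfold ls
  rw [Multiset.sum_map_mul_left, ← mul_finsum, mul_add]

theorem ls_sub {f g : AbsoluteValue K ℝ → ℝ} (hf : FS f) (hg : FS g) :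
    ls (fun v => f v - g v) = ls f - ls g := by
  have h1 : (fun v => f v - g v) = fun v => f v + (-1) * g v := by
    funext v
    ring
  rw [h1, ls_add hf (hg.mul_left _), ls_mul_left]
  ring

theorem ls_zero : ls (fun _ : AbsoluteValue K ℝ => (0 : ℝ)) = 0 := by
  unfold ls
  simp

theorem ls_sum {α : Type*} (s : Finset α) {f : α → AbsoluteValue K ℝ → ℝ}
    (hf : ∀ a ∈ s, FS (f a)) : ls (fun v => ∑ a ∈ s, f a v) = ∑ a ∈ s, ls (f a) := by
  classical
  induction s using Finset.induction_on with
  | empty => simpa using ls_zero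
  | insert a s ha ih =>
    simp only [Finset.sum_insert ha]
    rw [ls_add (hf a (Finset.mem_insert_self _ _))
      (FS.sum s fun b hb => hf b (Finset.mem_insert_of_mem hb)),
      ih fun b hb => hf b (Finset.mem_insert_of_mem hb)]

theorem ls_mono {f g : AbsoluteValue K ℝ → ℝ} (hf : FS f) (hg : FS g)
    (h : ∀ v, Mem v → f v ≤ g v) : ls f ≤ ls g := by
  unfold ls
  refine add_le_add ?_ ?_
  · exact Multiset.sum_map_le_sum_map _ _ fun v hv => h v (Or.inl hv)
  · classical
    set s : Finset (nonarchAbsVal (K := K)) := hf.toFinset ∪ hg.toFinset with hs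
    rw [finsum_eq_sum_of_support_subset (s := s) _ (by
        intro v hv
        rw [hs, Finset.coe_union, Set.mem_union]
        exact Or.inl (hf.mem_toFinset.2 hv)),
      finsum_eq_sum_of_support_subset (s := s) _ (by
        intro v hv
        rw [hs, Finset.coe_union, Set.mem_union]
        exact Or.inr (hg.mem_toFinset.2 hv))]
    exact Finset.sum_le_sum fun v _ => h v.val (Or.inr v.2)

theorem ls_nonneg {f : AbsoluteValue K ℝ → ℝ} (hf : FS f) (h : ∀ v, Mem v → 0 ≤ f v) :
    0 ≤ ls f := by
  have := ls_mono FS.zero hf h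
  rwa [ls_zero] at this

theorem FS_log {x : K} (hx : x ≠ 0) : FS (fun v => Real.log (v x)) := by
  have h := hasFiniteMulSupport (K := K) hx
  refine Set.Finite.subset h fun v hv => ?_
  rw [Function.mem_support] at hv
  rw [Function.mem_mulSupport]
  intro h1
  refine hv ?_
  change Real.log (v.val x) = 0
  rw [h1, Real.log_one]

theorem ls_log {x : K} (hx : x ≠ 0) : ls (fun v => Real.log (v x)) = 0 := by
  have h := product_formula (K := K) hx
  have hpos : ∀ v : AbsoluteValue K ℝ, 0 < v x := fun v => v.pos hx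
  have h1 : ((archAbsVal (K := K)).map (· x)).prod ≠ 0 := by
    intro h0
    rw [h0, zero_mul] at h
    exact zero_ne_one h
  have h2 : (∏ᶠ v : nonarchAbsVal (K := K), v.val x) ≠ 0 := by
    intro h0
    rw [h0, mul_zero] at h
    exact zero_ne_one h
  have h3 := congrArg Real.log h
  rw [Real.log_one, Real.log_mul h1 h2] at h3
  unfold ls
  rw [← h3]
  congr 1
  · rw [Real.log_multiset_prod]
    · rw [Multiset.map_map]
      rfl
    · intro a ha
      obtain ⟨v, -, rfl⟩ := Multiset.mem_map.1 ha
      exact (hpos v).ne'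
  · exact (Real.log_finprod (f := fun v : nonarchAbsVal (K := K) => v.val x)
      (fun v => hpos v.val)).symm

end Pool.Agent.Helper29.TG
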