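import Pool.Agent.Helper29.TG.Basic

/-!
# Project TG: contact of two points (module of helper45)
-/

set_option autoImplicit false

namespace Pool.Agent.Helper29.TG

open Height AdmissibleAbsValues

variable {K : Type} [Field K]

section one

variable {ι : Type} [Finite ι]

theorem le_nm (v : AbsoluteValue K ℝ) (x : ι → K) (i : ι) : v (x i) ≤ nm v x :=
  le_ciSup (f := fun i => v (x i)) (Set.finite_range _).bddAbove i

omit [Finite ι] in
theorem nm_nonneg (v : AbsoluteValue K ℝ) (x : ι → K) : 0 ≤ nm v x :=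
  Real.iSup_nonneg fun i => v.nonneg _

omit [Finite ι] in
theorem nm_le {v : AbsoluteValue K ℝ} {x : ι → K} {c : ℝ} (hc : 0 ≤ c) (h : ∀ i, v (x i) ≤ c) :
    nm v x ≤ c :=
  Real.iSup_le h hc

theorem exists_nm_eq (v : AbsoluteValue K ℝ) {x : ι → K} (hx : x ≠ 0) :
    ∃ i, x i ≠ 0 ∧ nm v x = v (x i) := by
  obtain ⟨i₁, hi₁⟩ := Function.ne_iff.1 hx
  have : Nonempty ι := ⟨i₁⟩
  obtain ⟨i, hi⟩ := Finite.exists_max fun i => v (x i)
  refine ⟨i, ?_, le_antisymm (nm_le (v.nonneg _) hi) (le_nm v x i)⟩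
  intro h0
  have h1 := hi i₁
  rw [h0, map_zero] at h1
  exact absurd (v.pos hi₁) (not_lt.2 h1)

theorem nm_pos (v : AbsoluteValue K ℝ) {x : ι → K} (hx : x ≠ 0) : 0 < nm v x := by
  obtain ⟨i, hi, h⟩ := exists_nm_eq v hx
  rw [h]
  exact v.pos hi

omit [Finite ι] in
theorem nm_smul (v : AbsoluteValue K ℝ) (c : K) (x : ι → K) : nm v (c • x) = v c * nm v x := by
  unfold nm
  rw [Real.mul_iSup_of_nonneg (v.nonneg c)]
  simp only [Pi.smul_apply, smul_eq_mul, map_mul]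

omit [Finite ι] in
theorem left_ne_zero {x y : ι → K} (h : cr x y ≠ 0) : x ≠ 0 := by
  rintro rfl
  apply h
  funext q
  simp [cr]

omit [Finite ι] in
theorem right_ne_zero {x y : ι → K} (h : cr x y ≠ 0) : y ≠ 0 := by
  rintro rfl
  apply h
  funext q
  simp [cr]

omit [Finite ι] in
theorem contact_cr_comm (x y : ι → K) : cr y x = -cr x y := by
  funext q
  simp only [cr, Pi.neg_apply]
  ring

omit [Finite ι] in
theorem cr_ne_zero_comm {x y : ι → K} (h : cr x y ≠ 0) : cr y x ≠ 0 := by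
  rw [contact_cr_comm]
  exact neg_ne_zero.2 h

omit [Finite ι] in
theorem contact_nm_neg (v : AbsoluteValue K ℝ) (x : ι → K) : nm v (-x) = nm v x := by
  unfold nm
  simp only [Pi.neg_apply, map_neg_eq_map]

omit [Finite ι] in
theorem ct_comm (v : AbsoluteValue K ℝ) (x y : ι → K) : ct v x y = ct v y x := by
  unfold ct
  rw [contact_cr_comm x y, contact_nm_neg]
  ring

theorem contact_cr_le {v : AbsoluteValue K ℝ} (hv : IsNonarchimedean v) (x y : ι → K) :
    nm v (cr x y) ≤ nm v x * nm v y := by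
  have h0 := mul_nonneg (nm_nonneg v x) (nm_nonneg v y)
  refine nm_le h0 fun q => ?_
  have h1 : ∀ a b : ι, v (x a * y b) ≤ nm v x * nm v y := fun a b => by
    rw [map_mul]
    exact mul_le_mul (le_nm v x a) (le_nm v y b) (v.nonneg _) (nm_nonneg v x)
  unfold cr
  rw [sub_eq_add_neg]
  refine (hv _ _).trans (max_le (h1 _ _) ?_)
  rw [map_neg_eq_map]
  exact h1 _ _

theorem contact_cr_le_two (v : AbsoluteValue K ℝ) (x y : ι → K) :
    nm v (cr x y) ≤ 2 * (nm v x * nm v y) := by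
  have h0 := mul_nonneg (nm_nonneg v x) (nm_nonneg v y)
  refine nm_le (by positivity) fun q => ?_
  have h1 : ∀ a b : ι, v (x a * y b) ≤ nm v x * nm v y := fun a b => by
    rw [map_mul]
    exact mul_le_mul (le_nm v x a) (le_nm v y b) (v.nonneg _) (nm_nonneg v x)
  unfold cr
  rw [sub_eq_add_neg]
  refine (v.add_le _ _).trans ?_
  rw [map_neg_eq_map]
  linarith [h1 q.1 q.2, h1 q.2 q.1]

theorem ct_nonneg {v : AbsoluteValue K ℝ} (hv : IsNonarchimedean v) {x y : ι → K}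
    (h : cr x y ≠ 0) : 0 ≤ ct v x y := by
  have hx := nm_pos v (left_ne_zero h)
  have hy := nm_pos v (right_ne_zero h)
  have h1 := Real.log_le_log (nm_pos v h) (contact_cr_le hv x y)
  rw [Real.log_mul hx.ne' hy.ne'] at h1
  unfold ct
  linarith

theorem neg_log_two_le_ct (v : AbsoluteValue K ℝ) {x y : ι → K} (h : cr x y ≠ 0) :
    -Real.log 2 ≤ ct v x y := by
  have hx := nm_pos v (left_ne_zero h)
  have hy := nm_pos v (right_ne_zero h)
  have h1 := Real.log_le_log (nm_pos v h) (contact_cr_le_two v x y)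
  rw [Real.log_mul two_ne_zero (mul_pos hx hy).ne', Real.log_mul hx.ne' hy.ne'] at h1
  unfold ct
  linarith

omit [Finite ι] in
theorem contact_identity (x y z : ι → K) (k : ι) (q : ι × ι) :
    z k * cr x y q = (-cr x z (k, q.1)) * y q.2 + x k * (-cr y z q) -
      (-cr x z (k, q.2)) * y q.1 := by
  simp only [cr]
  ring

/-- the three terms of the identity -/
theorem contact_terms (v : AbsoluteValue K ℝ) (x y z : ι → K) (k : ι) (q : ι × ι) :
    v ((-cr x z (k, q.1)) * y q.2) ≤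
      max (nm v (cr x z) * nm v y) (nm v x * nm v (cr y z)) ∧
    v (x k * (-cr y z q)) ≤ max (nm v (cr x z) * nm v y) (nm v x * nm v (cr y z)) ∧
    v ((-cr x z (k, q.2)) * y q.1) ≤
      max (nm v (cr x z) * nm v y) (nm v x * nm v (cr y z)) := by
  refine ⟨?_, ?_, ?_⟩
  · rw [map_mul, map_neg_eq_map]
    exact (mul_le_mul (le_nm v _ _) (le_nm v _ _) (v.nonneg _) (nm_nonneg _ _)).trans
      (le_max_left _ _)
  · rw [map_mul, map_neg_eq_map]
    exact (mul_le_mul (le_nm v _ _) (le_nm v _ _) (v.nonneg _) (nm_nonneg _ _)).trans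
      (le_max_right _ _)
  · rw [map_mul, map_neg_eq_map]
    exact (mul_le_mul (le_nm v _ _) (le_nm v _ _) (v.nonneg _) (nm_nonneg _ _)).trans
      (le_max_left _ _)

theorem contact_three {v : AbsoluteValue K ℝ} (hv : IsNonarchimedean v) {x y z : ι → K}
    (hz : z ≠ 0) :
    nm v z * nm v (cr x y) ≤ max (nm v (cr x z) * nm v y) (nm v x * nm v (cr y z)) := by
  obtain ⟨k, hk, hkz⟩ := exists_nm_eq v hz
  have h0 : 0 ≤ max (nm v (cr x z) * nm v y) (nm v x * nm v (cr y z)) :=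
    (mul_nonneg (nm_nonneg _ _) (nm_nonneg _ _)).trans (le_max_left _ _)
  have h1 : nm v z * nm v (cr x y) = nm v (z k • cr x y) := by rw [nm_smul, hkz]
  rw [h1]
  refine nm_le h0 fun q => ?_
  rw [Pi.smul_apply, smul_eq_mul, contact_identity x y z k q, sub_eq_add_neg]
  obtain ⟨t1, t2, t3⟩ := contact_terms v x y z k q
  refine (hv _ _).trans (max_le ((hv _ _).trans (max_le t1 t2)) ?_)
  rw [map_neg_eq_map]
  exact t3

theorem contact_three_log (v : AbsoluteValue K ℝ) {x y z : ι → K} (hz : z ≠ 0) :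
    nm v z * nm v (cr x y) ≤
      3 * max (nm v (cr x z) * nm v y) (nm v x * nm v (cr y z)) := by
  obtain ⟨k, hk, hkz⟩ := exists_nm_eq v hz
  have h0 : 0 ≤ max (nm v (cr x z) * nm v y) (nm v x * nm v (cr y z)) :=
    (mul_nonneg (nm_nonneg _ _) (nm_nonneg _ _)).trans (le_max_left _ _)
  have h1 : nm v z * nm v (cr x y) = nm v (z k • cr x y) := by rw [nm_smul, hkz]
  rw [h1]
  refine nm_le (by positivity) fun q => ?_
  rw [Pi.smul_apply, smul_eq_mul, contact_identity x y z k q, sub_eq_add_neg]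
  obtain ⟨t1, t2, t3⟩ := contact_terms v x y z k q
  refine (v.add_le _ _).trans ?_
  rw [map_neg_eq_map]
  have h2 := v.add_le ((-cr x z (k, q.1)) * y q.2) (x k * (-cr y z q))
  linarith

theorem contact_log {v : AbsoluteValue K ℝ} {x y z : ι → K}
    (hxy : cr x y ≠ 0) (hxz : cr x z ≠ 0) (hyz : cr y z ≠ 0) {c : ℝ} (hc : 0 < c)
    (h : nm v z * nm v (cr x y) ≤
      c * max (nm v (cr x z) * nm v y) (nm v x * nm v (cr y z))) :
    min (ct v x z) (ct v y z) ≤ ct v x y + Real.log c := by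
  have hx := nm_pos v (left_ne_zero hxy)
  have hy := nm_pos v (right_ne_zero hxy)
  have hz := nm_pos v (right_ne_zero hxz)
  have h1 := nm_pos v hxy
  have h2 := nm_pos v hxz
  have h3 := nm_pos v hyz
  unfold ct
  rcases le_total (nm v (cr x z) * nm v y) (nm v x * nm v (cr y z)) with hle | hle
  · rw [max_eq_right hle] at h
    have h4 := Real.log_le_log (mul_pos hz h1) h
    rw [Real.log_mul hz.ne' h1.ne', Real.log_mul hc.ne' (mul_pos hx h3).ne',
      Real.log_mul hx.ne' h3.ne'] at h4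
    refine (min_le_right _ _).trans ?_
    linarith
  · rw [max_eq_left hle] at h
    have h4 := Real.log_le_log (mul_pos hz h1) h
    rw [Real.log_mul hz.ne' h1.ne', Real.log_mul hc.ne' (mul_pos h2 hy).ne',
      Real.log_mul h2.ne' hy.ne'] at h4
    refine (min_le_left _ _).trans ?_
    linarith

/-- ultrametric inequality -/
theorem ct_min {v : AbsoluteValue K ℝ} (hv : IsNonarchimedean v) {x y z : ι → K}
    (hxy : cr x y ≠ 0) (hxz : cr x z ≠ 0) (hyz : cr y z ≠ 0) :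
    min (ct v x z) (ct v y z) ≤ ct v x y := by
  have h := contact_log (v := v) hxy hxz hyz zero_lt_one
    (by rw [one_mul]; exact contact_three hv (right_ne_zero hxz))
  rwa [Real.log_one, add_zero] at h

theorem ct_min_log (v : AbsoluteValue K ℝ) {x y z : ι → K}
    (hxy : cr x y ≠ 0) (hxz : cr x z ≠ 0) (hyz : cr y z ≠ 0) :
    min (ct v x z) (ct v y z) ≤ ct v x y + Real.log 3 :=
  contact_log hxy hxz hyz (by norm_num) (contact_three_log v (right_ne_zero hxz))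

omit [Finite ι] in
theorem contact_sum {v : AbsoluteValue K ℝ} {Γ : Finset ℕ}
    (hΓ : Γ.Nonempty) {y : ℕ → ι → K} {z : ι → K} {t : ℕ → ℕ → ℝ}
    (h0 : ∀ i ∈ Γ, ∀ j ∈ Γ.erase i, 0 ≤ t i j)
    (h : ∀ i ∈ Γ, ∀ j ∈ Γ, i ≠ j → min (ct v (y i) z) (ct v (y j) z) ≤ t i j) :
    ∃ i₀ ∈ Γ, ∑ i ∈ Γ, ct v (y i) z ≤
      ct v (y i₀) z + ∑ i ∈ Γ, ∑ j ∈ Γ.erase i, t i j := by
  classical
  obtain ⟨i₀, hi₀, hmax⟩ := Γ.exists_max_image (fun i => ct v (y i) z) hΓ
  refine ⟨i₀, hi₀, ?_⟩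
  rw [← Finset.add_sum_erase Γ (fun i => ct v (y i) z) hi₀]
  have h1 : ∑ i ∈ Γ.erase i₀, ct v (y i) z ≤
      ∑ i ∈ Γ.erase i₀, ∑ j ∈ Γ.erase i, t i j := by
    refine Finset.sum_le_sum fun i hi => ?_
    have hiΓ := Finset.mem_of_mem_erase hi
    have hne := Finset.ne_of_mem_erase hi
    have h2 := h i hiΓ i₀ hi₀ hne
    rw [min_eq_left (hmax i hiΓ)] at h2
    refine h2.trans ?_
    exact Finset.single_le_sum (f := fun j => t i j) (fun j hj => h0 i hiΓ j hj)
      (Finset.mem_erase.2 ⟨hne.symm, hi₀⟩)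
  have h3 : ∑ i ∈ Γ.erase i₀, ∑ j ∈ Γ.erase i, t i j ≤ ∑ i ∈ Γ, ∑ j ∈ Γ.erase i, t i j :=
    Finset.sum_le_sum_of_subset_of_nonneg (Finset.erase_subset _ _) fun i hi _ =>
      Finset.sum_nonneg fun j hj => h0 i hi j hj
  linarith

/-- at most one contact is large -/
theorem sum_ct_le {v : AbsoluteValue K ℝ} (hv : IsNonarchimedean v) {Γ : Finset ℕ}
    (hΓ : Γ.Nonempty) {y : ℕ → ι → K} {z : ι → K} (h : ∀ i ∈ Γ, cr (y i) z ≠ 0)
    (h' : ∀ i ∈ Γ, ∀ j ∈ Γ, i ≠ j → cr (y i) (y j) ≠ 0) :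
    ∃ i₀ ∈ Γ, ∑ i ∈ Γ, ct v (y i) z ≤
      ct v (y i₀) z + ∑ i ∈ Γ, ∑ j ∈ Γ.erase i, ct v (y i) (y j) :=
  contact_sum hΓ
    (fun i hi j hj => ct_nonneg hv (h' i hi j (Finset.mem_of_mem_erase hj)
      (Finset.ne_of_mem_erase hj).symm))
    fun i hi j hj hij => ct_min hv (h' i hi j hj hij) (h i hi) (h j hj)

theorem sum_ct_le_log (v : AbsoluteValue K ℝ) {Γ : Finset ℕ}
    (hΓ : Γ.Nonempty) {y : ℕ → ι → K} {z : ι → K} (h : ∀ i ∈ Γ, cr (y i) z ≠ 0)
    (h' : ∀ i ∈ Γ, ∀ j ∈ Γ, i ≠ j → cr (y i) (y j) ≠ 0) :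
    ∃ i₀ ∈ Γ, ∑ i ∈ Γ, ct v (y i) z ≤
      ct v (y i₀) z + ∑ i ∈ Γ, ∑ j ∈ Γ.erase i, (ct v (y i) (y j) + Real.log 6) := by
  have h6 : Real.log 6 = Real.log 2 + Real.log 3 := by
    rw [← Real.log_mul (by norm_num) (by norm_num)]
    norm_num
  have h3 : 0 ≤ Real.log 3 := Real.log_nonneg (by norm_num)
  have h2 : 0 ≤ Real.log 2 := Real.log_nonneg (by norm_num)
  refine contact_sum hΓ (fun i hi j hj => ?_) fun i hi j hj hij => ?_
  · have := neg_log_two_le_ct v (h' i hi j (Finset.mem_of_mem_erase hj)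
      (Finset.ne_of_mem_erase hj).symm)
    rw [h6]
    linarith
  · have := ct_min_log v (h' i hi j hj hij) (h i hi) (h j hj)
    rw [h6]
    linarith

end one

end Pool.Agent.Helper29.TG
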