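import Pool.Agent.Helper29.TG.Wedge
import Pool.Agent.Helper38.TQ.Prim
import Pool.Agent.Helper38.TQ.Minor

/-!
# Project TG: projection to a plane curve (module of helper58)
-/

set_option autoImplicit false

namespace Pool.Agent.Helper29.TG

open MvPolynomial

variable {K : Type} [Field K] {ν : ℕ}

/-- Any three linear forms satisfy a homogeneous relation at the points `x n`, `n ∈ S`. -/
def OnCurveS (S : Set ℕ) (x : ℕ → Fin (ν + 1) → K) : Prop :=
  ∀ a : Fin 3 → Fin (ν + 1) → K, ∃ (P : MvPolynomial (Fin 3) K) (e : ℕ), P ≠ 0 ∧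
    P.IsHomogeneous e ∧ ∀ n ∈ S, eval (pl a (x n)) P = 0

/-- a free ultrafilter containing an infinite set -/
theorem plane_ultra {S : Set ℕ} (hS : S.Infinite) :
    ∃ U : Ultrafilter ℕ, Pool.Agent.Helper38.TQ.Free U ∧ ∀ᶠ n in (U : Filter ℕ), n ∈ S := by
  have hne : (Filter.cofinite ⊓ Filter.principal S : Filter ℕ).NeBot :=
    Filter.cofinite_inf_principal_neBot_iff.2 hS
  refine ⟨Ultrafilter.of (Filter.cofinite ⊓ Filter.principal S), ?_, ?_⟩
  · intro m
    have h1 : ∀ᶠ n in (Filter.cofinite : Filter ℕ), m ≤ n := by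
      rw [Nat.cofinite_eq_atTop]
      exact Filter.eventually_ge_atTop m
    exact (Ultrafilter.of_le (Filter.cofinite ⊓ Filter.principal S)).trans inf_le_left h1
  · exact (Ultrafilter.of_le (Filter.cofinite ⊓ Filter.principal S)).trans inf_le_right
      (Filter.mem_principal_self S)

/-- a binary form vanishing on the affine line is zero -/
theorem plane_binary [Infinite K] {P : MvPolynomial (Fin 2) K} {e : ℕ} (hP : P.IsHomogeneous e)
    (h : ∀ t : K, eval ![1, t] P = 0) : P = 0 := by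
  have h1 : X 0 * P = 0 := by
    apply MvPolynomial.funext
    intro z
    rw [map_mul, eval_X, map_zero]
    by_cases hz : z 0 = 0
    · rw [hz, zero_mul]
    · have h2 := h ((z 0)⁻¹ * z 1)
      have h4 : (![1, (z 0)⁻¹ * z 1] : Fin 2 → K) = (z 0)⁻¹ • z := by
        funext i
        fin_cases i
        · simp [hz]
        · rfl
      rw [h4, Pool.Agent.Helper38.TQ.eval_smul_hom hP] at h2
      rcases mul_eq_zero.1 h2 with h3 | h3
      · exact absurd h3 (pow_ne_zero _ (inv_ne_zero hz))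
      · rw [h3, mul_zero]
  rcases mul_eq_zero.1 h1 with h2 | h2
  · exact absurd h2 (X_ne_zero _)
  · exact h2

/-- a relation between two coordinates makes the ratio constant along the ultrafilter -/
theorem plane_ratio [Infinite K] {U : Ultrafilter ℕ} {u w : ℕ → K}
    (hu : ∀ᶠ n in (U : Filter ℕ), u n ≠ 0) {P : MvPolynomial (Fin 2) K} {e : ℕ}
    (hP : P.IsHomogeneous e) (hP0 : P ≠ 0)
    (hv : ∀ᶠ n in (U : Filter ℕ), eval ![u n, w n] P = 0) :
    ∃ c : K, ∀ᶠ n in (U : Filter ℕ), w n = c * u n := by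
  classical
  obtain ⟨p, hp⟩ : ∃ p : Polynomial K,
      p = aeval (![1, Polynomial.X] : Fin 2 → Polynomial K) P := ⟨_, rfl⟩
  have hpe : ∀ t : K, Polynomial.eval t p = eval ![1, t] P := by
    intro t
    have h3 : (Polynomial.aeval t : Polynomial K →ₐ[K] K).comp
        (aeval (![1, Polynomial.X] : Fin 2 → Polynomial K)) =
        (aeval (![1, t] : Fin 2 → K)) := by
      apply MvPolynomial.algHom_ext
      intro i
      rw [AlgHom.comp_apply, aeval_X, aeval_X]
      fin_cases i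
      · exact map_one _
      · change Polynomial.aeval t Polynomial.X = t
        rw [Polynomial.aeval_X]
    have h4 := congrArg (fun φ => φ P) h3
    rw [hp, ← coe_aeval_eq_eval, ← Polynomial.coe_aeval_eq_eval]
    exact h4
  have hp0 : p ≠ 0 := by
    intro h
    apply hP0
    apply plane_binary hP
    intro t
    rw [← hpe, h, Polynomial.eval_zero]
  have h1 : ∀ᶠ n in (U : Filter ℕ), w n / u n ∈ p.roots.toFinset := by
    filter_upwards [hu, hv] with n h2 h3
    rw [Multiset.mem_toFinset, Polynomial.mem_roots hp0, Polynomial.IsRoot.def, hpe]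
    have h4 : (![1, w n / u n] : Fin 2 → K) = (u n)⁻¹ • ![u n, w n] := by
      funext i
      fin_cases i
      · simp [h2]
      · simp [div_eq_inv_mul]
    rw [h4, Pool.Agent.Helper38.TQ.eval_smul_hom hP, h3, mul_zero]
  have h2 : ∃ c ∈ (p.roots.toFinset : Set K), {n | w n / u n = c} ∈ U := by
    refine (Ultrafilter.finite_biUnion_mem_iff (Finset.finite_toSet _)).1 ?_
    filter_upwards [h1] with n hn
    exact Set.mem_iUnion₂.2 ⟨w n / u n, hn, rfl⟩
  obtain ⟨c, -, hc⟩ := h2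
  refine ⟨c, ?_⟩
  filter_upwards [hc, hu] with n h3 h4
  have h5 : w n / u n = c := h3
  rw [← h5, div_mul_cancel₀ _ h4]

theorem exists_plane [CharZero K] {x : ℕ → Fin (ν + 1) → K} {S : Set ℕ} (hS : S.Infinite)
    (hx : ∀ n ∈ S, x n ≠ 0) (hnp : ∀ n ∈ S, ∀ n' ∈ S, n ≠ n' → cr (x n) (x n') ≠ 0)
    (hc : OnCurveS S x) :
    ∃ (T : Set ℕ) (a : Fin 3 → Fin (ν + 1) → K) (e D : ℕ) (V g : MvPolynomial (Fin 3) K)
      (P : Fin (ν + 1) → MvPolynomial (Fin 3) K), T ⊆ S ∧ T.Infinite ∧ V.IsHomogeneous e ∧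
      (∀ j, (P j).IsHomogeneous (e + 1)) ∧ g.IsHomogeneous D ∧ Irreducible g ∧
      ∀ n ∈ T, eval (pl a (x n)) g = 0 ∧ eval (pl a (x n)) V ≠ 0 ∧
        ∀ j, x n j * eval (pl a (x n)) V = eval (pl a (x n)) (P j) := by
  classical
  obtain ⟨U, hU, hUS⟩ := plane_ultra hS
  -- the first coordinate
  have hj : ∃ j₀ : Fin (ν + 1), ∀ᶠ n in (U : Filter ℕ), x n j₀ ≠ 0 := by
    have h1 : ∃ j ∈ (Set.univ : Set (Fin (ν + 1))), {n | x n j ≠ 0} ∈ U := by
      refine (Ultrafilter.finite_biUnion_mem_iff Set.finite_univ).1 ?_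
      filter_upwards [hUS] with n hn
      obtain ⟨j, hj⟩ := Function.ne_iff.1 (hx n hn)
      exact Set.mem_iUnion₂.2 ⟨j, Set.mem_univ j, hj⟩
    obtain ⟨j, -, hj⟩ := h1
    exact ⟨j, hj⟩
  obtain ⟨j₀, hj₀⟩ := hj
  -- the second coordinate
  have hj1 : ∃ j₁ : Fin (ν + 1), ∀ (P : MvPolynomial (Fin 2) K) (e : ℕ), P.IsHomogeneous e →
      P ≠ 0 → ¬ ∀ᶠ n in (U : Filter ℕ), eval ![x n j₀, x n j₁] P = 0 := by
    by_contra hcon
    push Not at hcon
    have h1 : ∀ j, ∃ c : K, ∀ᶠ n in (U : Filter ℕ), x n j = c * x n j₀ := by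
      intro j
      obtain ⟨P, e, hP, hP0, hv⟩ := hcon j
      exact plane_ratio hj₀ hP hP0 hv
    choose c hcc using h1
    have h2 : ∀ᶠ n in (U : Filter ℕ), ∀ j, x n j = c j * x n j₀ :=
      Filter.eventually_all.2 hcc
    have h3 : ∀ᶠ n in (U : Filter ℕ), n ∈ S ∧ ∀ j, x n j = c j * x n j₀ := hUS.and h2
    obtain ⟨n, ⟨hnS, hn⟩, -⟩ := Pool.Agent.Helper30.TP.ultra_exists_notMem hU Set.finite_empty h3
    obtain ⟨n', ⟨hnS', hn'⟩, hne⟩ := Pool.Agent.Helper30.TP.ultra_exists_notMem hU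
      (Set.finite_singleton n) h3
    refine hnp n hnS n' hnS' (fun h => hne (by rw [h]; rfl)) ?_
    funext q
    unfold cr
    rw [hn q.1, hn' q.2, hn q.2, hn' q.1, Pi.zero_apply]
    ring
  obtain ⟨j₁, hj₁⟩ := hj1
  have hl : ∀ (a : Fin (ν + 1) → K) (n : ℕ),
      Pool.Agent.Helper38.TQ.lin (k := K) (K := K) a (x n) = lin a (x n) := fun a n => rfl
  have hls : ∀ (j : Fin (ν + 1)) (n : ℕ),
      Pool.Agent.Helper38.TQ.lin (k := K) (K := K) (Pi.single j 1) (x n) = x n j := by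
    intro j n
    rw [hl]
    unfold lin
    rw [Finset.sum_eq_single j]
    · rw [Pi.single_eq_same, one_mul]
    · intro i _ hij
      rw [Pi.single_eq_of_ne hij, zero_mul]
    · intro h3
      exact absurd (Finset.mem_univ j) h3
  have hcurve : Pool.Agent.Helper38.TQ.OnCurve U x := by
    intro m
    obtain ⟨P, e, hP0, hP, hv⟩ := hc m
    refine ⟨P, e, hP, hP0, ?_⟩
    filter_upwards [hUS] with n hn
    exact hv n hn
  obtain ⟨a₂, e, V, P, hV, hP, hVP⟩ := Pool.Agent.Helper38.TQ.exists_third_form (k := K) hcurve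
    (Pi.single j₀ 1) (Pi.single j₁ 1) (by
      intro P e hP hP0 hv
      apply hj₁ P e hP hP0
      filter_upwards [hv] with n hn
      rwa [hls, hls] at hn)
  obtain ⟨a, ha⟩ : ∃ a : Fin 3 → Fin (ν + 1) → K, a = ![Pi.single j₀ 1, Pi.single j₁ 1, a₂] :=
    ⟨_, rfl⟩
  have hpl : ∀ n, pl a (x n) = ![Pool.Agent.Helper38.TQ.lin (k := K) (Pi.single j₀ 1) (x n),
      Pool.Agent.Helper38.TQ.lin (k := K) (Pi.single j₁ 1) (x n),
      Pool.Agent.Helper38.TQ.lin (k := K) a₂ (x n)] := by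
    intro n
    funext j
    rw [ha]
    fin_cases j <;> rfl
  obtain ⟨Q, eQ, hQ0, hQ, hQv⟩ := hc a
  have hQv' : ∀ᶠ n in (U : Filter ℕ), eval (pl a (x n)) Q = 0 := by
    filter_upwards [hUS] with n hn
    exact hQv n hn
  obtain ⟨D, g, hg, hgi, hgv⟩ := Pool.Agent.Helper38.TQ.exists_irreducible_form hQ hQ0 hQv'
  obtain ⟨T, hT⟩ : ∃ T : Set ℕ, T = {n | n ∈ S ∧ eval (pl a (x n)) g = 0 ∧
      eval (pl a (x n)) V ≠ 0 ∧ ∀ j, x n j * eval (pl a (x n)) V = eval (pl a (x n)) (P j)} :=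
    ⟨_, rfl⟩
  have hTU : ∀ᶠ n in (U : Filter ℕ), n ∈ T := by
    filter_upwards [hUS, hgv, hVP] with n h1 h2 h3
    rw [← hpl] at h3
    rw [hT]
    exact ⟨h1, h2, h3⟩
  refine ⟨T, a, e, D, V, g, P, ?_, ?_, hV, hP, hg, hgi, ?_⟩
  · intro n hn
    rw [hT] at hn
    exact hn.1
  · intro hfin
    obtain ⟨n, hn1, hn2⟩ := Pool.Agent.Helper30.TP.ultra_exists_notMem hU hfin hTU
    exact hn2 hn1
  · intro n hn
    rw [hT] at hn
    exact hn.2

end Pool.Agent.Helper29.TG
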