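import Pool.Agent.Helper29.TG.Low
import Pool.Agent.Helper29.TG.Plane

/-!
# Project TG: a place with large contact and small defects (helper29)
-/

set_option autoImplicit false

namespace Pool.Agent.Helper29.TG

open Height AdmissibleAbsValues MvPolynomial

theorem count_sum_heights {h : ℕ → ℝ} (h0 : ∀ n, 0 ≤ h n) {C : ℝ} (hC : 0 ≤ C)
    (hstep : ∀ n, 2 * h n ≤ h (n + 1) + C) (n : ℕ) :
    ∑ l ∈ Finset.range n, h l ≤ h n + n * C := by
  induction n with
  | zero => simpa using h0 0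
  | succ n ih =>
    rw [Finset.sum_range_succ]
    push_cast
    have := hstep n
    linarith

theorem count_exp_growth (A B : ℝ) (m₀ : ℕ) : ∃ n₁ : ℕ, ∀ n, n₁ ≤ n → A * n + B < 2 ^ (n - m₀) := by
  have h1 : Filter.Tendsto (fun k : ℕ => (2 : ℝ) ^ k - (|A| * k + (|A| * m₀ + |B|)))
      Filter.atTop Filter.atTop := by
    have h2 : Filter.Tendsto (fun k : ℕ => ((k : ℝ) / 2 ^ k)) Filter.atTop (nhds 0) := by
      have := tendsto_pow_const_div_const_pow_of_one_lt 1 (one_lt_two (α := ℝ))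
      simpa using this
    have h3 : Filter.Tendsto (fun k : ℕ => ((|A| * m₀ + |B|) / 2 ^ k)) Filter.atTop (nhds 0) :=
      tendsto_const_nhds.div_atTop (tendsto_pow_atTop_atTop_of_one_lt one_lt_two)
    have h4 : Filter.Tendsto (fun k : ℕ => (1 : ℝ) - |A| * (k / 2 ^ k) - (|A| * m₀ + |B|) / 2 ^ k)
        Filter.atTop (nhds 1) := by
      have := ((tendsto_const_nhds (x := (1 : ℝ))).sub (h2.const_mul |A|)).sub h3
      simpa using this
    have h5 := (tendsto_pow_atTop_atTop_of_one_lt (one_lt_two (α := ℝ))).atTop_mul_pos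
      one_pos h4
    refine h5.congr fun k => ?_
    have h6 : (2 : ℝ) ^ k ≠ 0 := by positivity
    field_simp
    ring
  obtain ⟨k₀, hk₀⟩ := (h1.eventually_gt_atTop 0).exists_forall_of_atTop
  refine ⟨m₀ + k₀, fun n hn => ?_⟩
  have h2 := hk₀ (n - m₀) (by omega)
  have h3 : (n : ℝ) = (n - m₀ : ℕ) + m₀ := by
    rw [← Nat.cast_add]
    congr 1
    omega
  have h4 : A * n ≤ |A| * n := mul_le_mul_of_nonneg_right (le_abs_self A) (Nat.cast_nonneg n)
  have h5 : B ≤ |B| := le_abs_self B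
  rw [h3] at h4 ⊢
  nlinarith

variable {K : Type} [Field K] [CharZero K] [AdmissibleAbsValues K] {ν : ℕ}

/-- **Main counting result.** `x n` distinct points with `2 h(x_n) ≤ h(x_(n+1)) + C` and
exponentially growing heights, infinitely many of them (`n ∈ S`) on a curve, `Q` a form of degree
`D` with `Q(x_n) ≠ 0` for `n ≥ n₀`. There are a non-archimedean place `v` outside a given finite
set and `n₀ ≤ i < n` in `S` such that at `v` the contact of `x_i` and `x_n` is larger than all the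
defects of `Q` at `x_l`, `i ≤ l < n`. -/
theorem exists_good_place {x : ℕ → Fin (ν + 1) → K} (hx : ∀ n, x n ≠ 0) {S : Set ℕ}
    (hS : S.Infinite) (hnp : ∀ n ∈ S, ∀ n' ∈ S, n ≠ n' → cr (x n) (x n') ≠ 0)
    (hc : OnCurveS S x)
    (hstep : ∃ C : ℝ, ∀ n, 2 * logHeight (x n) ≤ logHeight (x (n + 1)) + C)
    (hgrow : ∃ m₀, ∀ n, m₀ ≤ n → (2 : ℝ) ^ (n - m₀) ≤ logHeight (x n))
    {Q : MvPolynomial (Fin (ν + 1)) K} {D : ℕ} (hQ : Q.IsHomogeneous D) {n₀ : ℕ}
    (hQx : ∀ n, n₀ ≤ n → eval (x n) Q ≠ 0) {B : Set (AbsoluteValue K ℝ)} (hB : B.Finite) :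
    ∃ v ∈ nonarchAbsVal (K := K), v ∉ B ∧ ∃ i ∈ S, ∃ n ∈ S, n₀ ≤ i ∧ i < n ∧
      0 < ct v (x i) (x n) ∧ ∀ l, i ≤ l → l < n → df v Q D (x l) < ct v (x i) (x n) := by
  classical
  by_contra hcon
  push Not at hcon
  obtain ⟨C₁', hC₁'⟩ := hstep
  set C₁ : ℝ := max C₁' 0 with hC₁
  have hC₁0 : 0 ≤ C₁ := le_max_right _ _
  have hstep : ∀ n, 2 * logHeight (x n) ≤ logHeight (x (n + 1)) + C₁ := fun n =>
    (hC₁' n).trans (by linarith [le_max_left C₁' 0])
  obtain ⟨m₀, hm₀⟩ := hgrow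
  -- the plane
  set S₁ : Set ℕ := {n | n ∈ S ∧ n₀ ≤ n} with hS₁
  have hS₁i : S₁.Infinite := by
    have h1 : S₁ = S \ Set.Iio n₀ := by
      ext n
      simp [hS₁]
    rw [h1]
    exact hS.sdiff (Set.finite_Iio n₀)
  obtain ⟨T, a, e, D', V, g, P, hTS, hTi, hV, hP, hg, hirr, hT⟩ := exists_plane hS₁i
    (fun n _ => hx n) (fun n hn n' hn' => hnp n hn.1 n' hn'.1)
    (fun a => by
      obtain ⟨P, e, h1, h2, h3⟩ := hc a
      exact ⟨P, e, h1, h2, fun n hn => h3 n hn.1⟩)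
  set y : ℕ → Fin 3 → K := fun n => pl a (x n) with hy
  obtain ⟨C₂, hC₂⟩ := exists_logHeight_le_pl a V hP
  have hy1 : ∀ n ∈ T, y n ≠ 0 ∧ logHeight (x n) ≤ (e + 1) * logHeight (y n) + C₂ := fun n hn =>
    hC₂ (x n) (hx n) (hT n hn).2.1 (hT n hn).2.2
  have hcrx : ∀ n ∈ T, ∀ n' ∈ T, n ≠ n' → cr (x n) (x n') ≠ 0 := fun n hn n' hn' h =>
    hnp n (hTS hn).1 n' (hTS hn').1 h
  have hcry : ∀ n ∈ T, ∀ n' ∈ T, n ≠ n' → cr (y n) (y n') ≠ 0 := fun n hn n' hn' h =>
    cr_pl_ne_zero hP (hT n hn).2.1 (hT n' hn').2.1 (hT n hn).2.2 (hT n' hn').2.2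
      (hcrx n hn n' hn' h)
  -- bad places
  set B' : Set (AbsoluteValue K ℝ) := B ∪ {v | v ∈ archAbsVal (K := K)} ∪
    {v | v ∈ nonarchAbsVal (K := K) ∧ ¬ CoeffInt v Q} ∪
    {v | v ∈ nonarchAbsVal (K := K) ∧ ¬ CoeffInt v V} ∪
    (⋃ j, {v | v ∈ nonarchAbsVal (K := K) ∧ ¬ CoeffInt v (P j)}) ∪
    (⋃ j, {v | v ∈ nonarchAbsVal (K := K) ∧ ¬ CoeffInt v (∑ i, C (a j i) * X i)}) with hB'
  have hB'f : B'.Finite := by
    refine ((((hB.union finite_arch).union (finite_not_coeffInt Q)).union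
      (finite_not_coeffInt V)).union ?_).union ?_
    · exact Set.finite_iUnion fun j => finite_not_coeffInt (P j)
    · exact Set.finite_iUnion fun j => finite_not_coeffInt _
  have hgood : ∀ v, Mem v → v ∉ B' → v ∈ nonarchAbsVal (K := K) ∧ v ∉ B ∧ CoeffInt v Q ∧
      CoeffInt v V ∧ (∀ j, CoeffInt v (P j)) ∧ ∀ j i, v (a j i) ≤ 1 := by
    intro v hv hvB
    simp only [hB', Set.mem_union, Set.mem_ofPred_eq, Set.mem_iUnion, not_or, not_exists,
      not_and, not_not] at hvB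
    obtain ⟨⟨⟨⟨⟨h1, h2⟩, h3⟩, h4⟩, h5⟩, h6⟩ := hvB
    have hv' : v ∈ nonarchAbsVal (K := K) := hv.resolve_left h2
    refine ⟨hv', h1, h3 hv', h4 hv', fun j => h5 j hv', fun j i => ?_⟩
    have h7 := h6 j hv' (Finsupp.single i 1)
    have h8 : coeff (Finsupp.single i 1) (∑ i, C (a j i) * X i : MvPolynomial (Fin (ν + 1)) K)
        = a j i := by
      rw [coeff_sum, Finset.sum_eq_single i]
      · rw [coeff_C_mul, coeff_X, if_pos rfl, mul_one]
      · intro b _ hb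
        rw [coeff_C_mul, coeff_X, if_neg, mul_zero]
        intro h
        exact hb (Finsupp.single_left_injective one_ne_zero h)
      · intro h
        exact absurd (Finset.mem_univ i) h
    rwa [h8] at h7
  set ind : AbsoluteValue K ℝ → ℝ := fun v => if v ∈ B' then 1 else 0 with hind
  have hindFS : FS ind := FS.of_finite hB'f fun v _ hv => by simp only [hind, if_neg hv]
  set b : ℝ := ls ind with hb
  obtain ⟨N', hN'⟩ := exists_nat_ge (b + e + D * (e + 1) + 1)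
  have hb0 : 0 ≤ b := ls_nonneg hindFS fun v _ => by
    simp only [hind]
    split_ifs <;> norm_num
  have hN'1 : 1 ≤ N' := by
    have h1 : (1 : ℝ) ≤ N' := by
      refine le_trans ?_ hN'
      have : (0 : ℝ) ≤ e + D * (e + 1) := by positivity
      linarith
    exact_mod_cast h1
  obtain ⟨Γ, C₃, hΓT, hΓ, hexc⟩ := exists_low hTi (fun n hn => (hy1 n hn).1) hcry hg hirr
    (fun n hn => (hT n hn).1) N' hN'1
  -- constants
  choose c₄ hc₄ using fun i : ℕ => exists_ct_le (y i)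
  set C₄ : ℝ := ∑ i ∈ Γ, |c₄ i| with hC₄
  have hC₄0 : 0 ≤ C₄ := Finset.sum_nonneg fun _ _ => abs_nonneg _
  have hct : ∀ i ∈ Γ, ∀ v, Mem v → ∀ z, cr (y i) z ≠ 0 → ct v (y i) z ≤ logHeight z + C₄ := by
    intro i hi v hv z hz
    have h1 := hc₄ i v hv z hz
    have h2 : |c₄ i| ≤ C₄ := Finset.single_le_sum (f := fun i => |c₄ i|)
      (fun _ _ => abs_nonneg _) hi
    linarith [le_abs_self (c₄ i)]
  set R : AbsoluteValue K ℝ → ℝ := fun v => ∑ i ∈ Γ, ∑ j ∈ Γ.erase i,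
    (ct v (y i) (y j) + Real.log 6 * ind v) with hR
  have hcrΓ : ∀ i ∈ Γ, ∀ j ∈ Γ, i ≠ j → cr (y i) (y j) ≠ 0 := fun i hi j hj =>
    hcry i (hΓT hi) j (hΓT hj)
  have hRFS : FS R := FS.sum Γ fun i hi => FS.sum (Γ.erase i) fun j hj =>
    (FS_ct (hcrΓ i hi j (Finset.mem_of_mem_erase hj) (Finset.ne_of_mem_erase hj).symm)).add
      (hindFS.mul_left _)
  obtain ⟨C_V, hC_V⟩ := exists_ls_df_le hV B'
  obtain ⟨C_Q, hC_Q⟩ := exists_ls_df_le hQ B'
  set dV : ℕ → AbsoluteValue K ℝ → ℝ := fun n v => if v ∈ B' then 0 else df v V e (y n) with hdV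
  set dQ : ℕ → AbsoluteValue K ℝ → ℝ := fun l v => if v ∈ B' then 0 else df v Q D (x l) with hdQ
  have hdV1 : ∀ n ∈ T, FS (dV n) ∧ ls (dV n) ≤ e * logHeight (y n) + C_V := by
    intro n hn
    have h1 := hC_V (y n) (hy1 n hn).1 (hT n hn).2.1
    have h2 : (fun v => if v ∈ B' then 0 else df v V e (y n)) = dV n := by
      funext v
      simp only [hdV]
    convert h1
  have hdQ1 : ∀ l, n₀ ≤ l → FS (dQ l) ∧ ls (dQ l) ≤ D * logHeight (x l) + C_Q := by
    intro l hl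
    have h1 := hC_Q (x l) (hx l) (hQx l hl)
    convert h1
  have hdV0 : ∀ n ∈ T, ∀ v, Mem v → 0 ≤ dV n v := by
    intro n hn v hv
    simp only [hdV]
    split_ifs with h
    · exact le_rfl
    · obtain ⟨h1, -, -, h2, -, -⟩ := hgood v hv h
      exact df_nonneg (isNonarchimedean v h1) hV h2 (hT n hn).2.1
  have hdQ0 : ∀ l, n₀ ≤ l → ∀ v, Mem v → 0 ≤ dQ l v := by
    intro l hl v hv
    simp only [hdQ]
    split_ifs with h
    · exact le_rfl
    · obtain ⟨h1, -, h2, -, -, -⟩ := hgood v hv h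
      exact df_nonneg (isNonarchimedean v h1) hQ h2 (hQx l hl)
  -- the constants of the final inequality
  set A₁ : ℝ := D * C₁ + |C_Q| with hA₁
  set A₂ : ℝ := b * C₄ + ls R + C_V + ∑ i ∈ Γ, (e * logHeight (y i) + C_V) + D * C₂ + C₃ with hA₂
  have key : ∀ n ∈ T, n ∉ Γ → (∀ i ∈ Γ, i < n) →
      N' * logHeight (y n) ≤ ∑ i ∈ Γ, ls (fun v => ct v (y i) (y n)) + C₃ →
      logHeight (y n) ≤ A₁ * n + A₂ := by
    intro n hn hnΓ hlt hlow
    have hcrn : ∀ i ∈ Γ, cr (y i) (y n) ≠ 0 := fun i hi =>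
      hcry i (hΓT hi) n hn (hlt i hi).ne
    set G : AbsoluteValue K ℝ → ℝ := fun v => (logHeight (y n) + C₄) * ind v + R v + dV n v +
      ∑ i ∈ Γ, dV i v + ∑ l ∈ Finset.Ico n₀ n, dQ l v with hG
    have hGFS1 : FS (fun v => (logHeight (y n) + C₄) * ind v) := hindFS.mul_left _
    have hGFS2 : FS (fun v => ∑ i ∈ Γ, dV i v) := FS.sum Γ fun i hi => (hdV1 i (hΓT hi)).1
    have hGFS3 : FS (fun v => ∑ l ∈ Finset.Ico n₀ n, dQ l v) :=
      FS.sum _ fun l hl => (hdQ1 l (Finset.mem_Ico.1 hl).1).1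
    have hGFS : FS G := (((hGFS1.add hRFS).add (hdV1 n hn).1).add hGFS2).add hGFS3
    have hlsG : ls G = (logHeight (y n) + C₄) * b + ls R + ls (dV n) + ∑ i ∈ Γ, ls (dV i) +
        ∑ l ∈ Finset.Ico n₀ n, ls (dQ l) := by
      rw [hG, ls_add (((hGFS1.add hRFS).add (hdV1 n hn).1).add hGFS2) hGFS3,
        ls_add ((hGFS1.add hRFS).add (hdV1 n hn).1) hGFS2, ls_add (hGFS1.add hRFS) (hdV1 n hn).1,
        ls_add hGFS1 hRFS, ls_mul_left, ls_sum _ fun i hi => (hdV1 i (hΓT hi)).1,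
        ls_sum _ fun l hl => (hdQ1 l (Finset.mem_Ico.1 hl).1).1]
    have hpt : ∀ v, Mem v → ∑ i ∈ Γ, ct v (y i) (y n) ≤ G v := by
      intro v hv
      have hV1 : 0 ≤ dV n v := hdV0 n hn v hv
      have hV2 : 0 ≤ ∑ i ∈ Γ, dV i v := Finset.sum_nonneg fun i hi => hdV0 i (hΓT hi) v hv
      have hQ2 : 0 ≤ ∑ l ∈ Finset.Ico n₀ n, dQ l v :=
        Finset.sum_nonneg fun l hl => hdQ0 l (Finset.mem_Ico.1 hl).1 v hv
      by_cases hvB : v ∈ B'
      · obtain ⟨i₀, hi₀, h1⟩ := sum_ct_le_log v hΓ hcrn hcrΓ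
        have h2 := hct i₀ hi₀ v hv (y n) (hcrn i₀ hi₀)
        have h3 : ind v = 1 := by simp only [hind, if_pos hvB]
        simp only [hG, hR, h3, mul_one]
        linarith
      · obtain ⟨g1, g2, g3, g4, g5, g6⟩ := hgood v hv hvB
        have hna := isNonarchimedean v g1
        obtain ⟨i₀, hi₀, h1⟩ := sum_ct_le hna hΓ hcrn hcrΓ
        have h3 : ind v = 0 := by simp only [hind, if_neg hvB]
        have hi₀T := hΓT hi₀
        have h4 : ct v (y i₀) (y n) ≤ ct v (x i₀) (x n) + df v V e (y i₀) + df v V e (y n) :=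
          ct_pl_le hna g6 hP g5 (hT i₀ hi₀T).2.1 (hT n hn).2.1 (hT i₀ hi₀T).2.2 (hT n hn).2.2
            (hcrx i₀ hi₀T n hn (hlt i₀ hi₀).ne)
        have h5 : dV n v = df v V e (y n) := by simp only [hdV, if_neg hvB]
        have h6 : df v V e (y i₀) ≤ ∑ i ∈ Γ, dV i v := by
          have h7 : dV i₀ v = df v V e (y i₀) := by simp only [hdV, if_neg hvB]
          rw [← h7]
          exact Finset.single_le_sum (f := fun i => dV i v)
            (fun i hi => hdV0 i (hΓT hi) v hv) hi₀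
        have h7 : ct v (x i₀) (x n) ≤ ∑ l ∈ Finset.Ico n₀ n, dQ l v := by
          rcases le_or_gt (ct v (x i₀) (x n)) 0 with h8 | h8
          · exact h8.trans hQ2
          · obtain ⟨l, hl1, hl2, hl3⟩ := hcon v g1 g2 i₀ (hTS hi₀T).1 n (hTS hn).1
              (hTS hi₀T).2 (hlt i₀ hi₀) h8
            have h9 : dQ l v = df v Q D (x l) := by simp only [hdQ, if_neg hvB]
            refine hl3.trans ?_
            rw [← h9]
            exact Finset.single_le_sum (f := fun l => dQ l v)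
              (fun l hl => hdQ0 l (Finset.mem_Ico.1 hl).1 v hv)
              (Finset.mem_Ico.2 ⟨(hTS hi₀T).2.trans hl1, hl2⟩)
        simp only [hG, hR, h3, mul_zero, add_zero, zero_add]
        rw [h5]
        linarith
    have hsum : ∑ i ∈ Γ, ls (fun v => ct v (y i) (y n)) ≤ ls G := by
      rw [← ls_sum Γ fun i hi => FS_ct (hcrn i hi)]
      exact ls_mono (FS.sum Γ fun i hi => FS_ct (hcrn i hi)) hGFS hpt
    have hh : ∑ l ∈ Finset.Ico n₀ n, logHeight (x l) ≤ logHeight (x n) + n * C₁ := by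
      refine le_trans ?_ (count_sum_heights (fun n => logHeight_nonneg (x n)) hC₁0 hstep n)
      apply Finset.sum_le_sum_of_subset_of_nonneg
      · intro l hl
        exact Finset.mem_range.2 (Finset.mem_Ico.1 hl).2
      · intro l _ _
        exact logHeight_nonneg _
    have hdQs : ∑ l ∈ Finset.Ico n₀ n, ls (dQ l) ≤
        D * (logHeight (x n) + n * C₁) + n * |C_Q| := by
      calc ∑ l ∈ Finset.Ico n₀ n, ls (dQ l)
          ≤ ∑ l ∈ Finset.Ico n₀ n, (D * logHeight (x l) + |C_Q|) :=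
            Finset.sum_le_sum fun l hl =>
              ((hdQ1 l (Finset.mem_Ico.1 hl).1).2).trans (by linarith [le_abs_self C_Q])
        _ = D * ∑ l ∈ Finset.Ico n₀ n, logHeight (x l) + (n - n₀ : ℕ) * |C_Q| := by
            rw [Finset.sum_add_distrib, ← Finset.mul_sum, Finset.sum_const, Nat.card_Ico,
              nsmul_eq_mul]
        _ ≤ _ := by
            have h1 : (D : ℝ) * ∑ l ∈ Finset.Ico n₀ n, logHeight (x l) ≤
                D * (logHeight (x n) + n * C₁) :=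
              mul_le_mul_of_nonneg_left hh (Nat.cast_nonneg D)
            have h2 : ((n - n₀ : ℕ) : ℝ) * |C_Q| ≤ n * |C_Q| := by
              apply mul_le_mul_of_nonneg_right _ (abs_nonneg _)
              exact_mod_cast Nat.sub_le n n₀
            linarith
    have hdVs : ∑ i ∈ Γ, ls (dV i) ≤ ∑ i ∈ Γ, (e * logHeight (y i) + C_V) :=
      Finset.sum_le_sum fun i hi => (hdV1 i (hΓT hi)).2
    have hdVn := (hdV1 n hn).2
    have hxn := (hy1 n hn).2
    have hDx : (D : ℝ) * logHeight (x n) ≤ D * ((e + 1) * logHeight (y n) + C₂) :=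
      mul_le_mul_of_nonneg_left hxn (Nat.cast_nonneg D)
    have hyn : 0 ≤ logHeight (y n) := logHeight_nonneg _
    have hNy : (b + e + D * (e + 1) + 1) * logHeight (y n) ≤ N' * logHeight (y n) :=
      mul_le_mul_of_nonneg_right hN' hyn
    rw [hlsG] at hsum
    simp only [hA₁, hA₂]
    linarith
  -- infinitely many `n`
  obtain ⟨n₁, hn₁⟩ := count_exp_growth ((e + 1) * A₁) ((e + 1) * A₂ + C₂) m₀
  have hinf : (T \ ({n ∈ T | n ∉ Γ ∧ ¬ N' * logHeight (y n) ≤
      ∑ i ∈ Γ, ls (fun v => ct v (y i) (y n)) + C₃} ∪ Set.Iic (Γ.sup id) ∪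
      Set.Iio n₁ ∪ Set.Iio m₀)).Infinite :=
    hTi.sdiff (((hexc.union (Set.finite_Iic _)).union (Set.finite_Iio _)).union (Set.finite_Iio _))
  obtain ⟨n, hn, hn'⟩ := hinf.nonempty
  simp only [Set.mem_union, Set.mem_ofPred_eq, Set.mem_Iic, Set.mem_Iio, not_or, not_and,
    not_not, not_le, not_lt] at hn'
  obtain ⟨⟨⟨h1, h2⟩, h3⟩, h4⟩ := hn'
  have hlt : ∀ i ∈ Γ, i < n := fun i hi =>
    lt_of_le_of_lt (Finset.le_sup (f := id) hi) h2
  have hnΓ : n ∉ Γ := fun h => lt_irrefl n (hlt n h)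
  have h5 := key n hn hnΓ hlt (h1 hn hnΓ)
  have h6 := hn₁ n h3
  have h7 := hm₀ n h4
  have h8 := (hy1 n hn).2
  have h9 : ((e : ℝ) + 1) * logHeight (y n) ≤ (e + 1) * (A₁ * n + A₂) :=
    mul_le_mul_of_nonneg_left h5 (by positivity)
  linarith

end Pool.Agent.Helper29.TG
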