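import Pool.Agent.Helper29.TG.Contact

/-!
# Project TG: sums of contacts over all places (module of helper10)
-/

set_option autoImplicit false

namespace Pool.Agent.Helper29.TG

open Height AdmissibleAbsValues

variable {K : Type} [Field K]

section two

variable {ι : Type} [Finite ι] [AdmissibleAbsValues K]

theorem FS_nm {x : ι → K} (hx : x ≠ 0) : FS (fun v => Real.log (nm v x)) := by
  classical
  have h1 : ∀ i : ι, FS (fun v : AbsoluteValue K ℝ =>
      if x i = 0 then (0 : ℝ) else Real.log (v (x i))) := by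
    intro i
    by_cases hi : x i = 0
    · simpa only [hi, if_true] using FS.zero
    · simpa only [hi, if_false] using FS_log hi
  refine Set.Finite.subset (Set.finite_iUnion h1) fun v hv => ?_
  rw [Function.mem_support] at hv
  obtain ⟨i, hi, hvi⟩ := exists_nm_eq v.val hx
  refine Set.mem_iUnion.2 ⟨i, ?_⟩
  rw [Function.mem_support]
  simp only [hi, if_false]
  rwa [← hvi]

theorem ls_nm {x : ι → K} (hx : x ≠ 0) : ls (fun v => Real.log (nm v x)) = logHeight x := by
  have hpos : ∀ v : AbsoluteValue K ℝ, 0 < nm v x := fun v => nm_pos v hx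
  have h0 : 0 < mulHeight x := mulHeight_pos x
  rw [logHeight_eq_log_mulHeight]
  rw [mulHeight_eq hx] at h0 ⊢
  have h1 : ((archAbsVal (K := K)).map fun v => ⨆ i, v (x i)).prod ≠ 0 := by
    intro h
    rw [h, zero_mul] at h0
    exact lt_irrefl _ h0
  have h2 : (∏ᶠ v : nonarchAbsVal (K := K), ⨆ i, v.val (x i)) ≠ 0 := by
    intro h
    rw [h, mul_zero] at h0
    exact lt_irrefl _ h0
  rw [Real.log_mul h1 h2]
  unfold ls
  congr 1
  · rw [Real.log_multiset_prod]
    · rw [Multiset.map_map]
      rfl
    · intro a ha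
      obtain ⟨v, -, rfl⟩ := Multiset.mem_map.1 ha
      exact (hpos v).ne'
  · exact (Real.log_finprod (f := fun v : nonarchAbsVal (K := K) => ⨆ i, v.val (x i))
      (fun v => hpos v.val)).symm

theorem FS_ct {x y : ι → K} (h : cr x y ≠ 0) : FS (fun v => ct v x y) :=
  ((FS_nm (left_ne_zero h)).add (FS_nm (right_ne_zero h))).sub (FS_nm h)

theorem ls_ct {x y : ι → K} (h : cr x y ≠ 0) :
    ls (fun v => ct v x y) = logHeight x + logHeight y - logHeight (cr x y) := by
  unfold ct
  rw [ls_sub ((FS_nm (left_ne_zero h)).add (FS_nm (right_ne_zero h))) (FS_nm h),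
    ls_add (FS_nm (left_ne_zero h)) (FS_nm (right_ne_zero h)), ls_nm (left_ne_zero h),
    ls_nm (right_ne_zero h), ls_nm h]

/-- one contact is at most the height -/
theorem exists_ct_le (y : ι → K) : ∃ C : ℝ, ∀ v : AbsoluteValue K ℝ, Mem v →
    ∀ z : ι → K, cr y z ≠ 0 → ct v y z ≤ logHeight z + C := by
  refine ⟨logHeight y + (archAbsVal (K := K)).card * Real.log 2, fun v hv z hyz => ?_⟩
  have h2 : 0 ≤ Real.log 2 := Real.log_nonneg (by norm_num)
  have h1 := ls_ct hyz
  have h3 : 0 ≤ logHeight (cr y z) := logHeight_nonneg _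
  have hna : ∀ w : nonarchAbsVal (K := K), 0 ≤ ct w.val y z := fun w =>
    ct_nonneg (isNonarchimedean w.val w.2) hyz
  have hfin : 0 ≤ ∑ᶠ w : nonarchAbsVal (K := K), ct w.val y z := finsum_nonneg hna
  have hsum : ((archAbsVal (K := K)).map fun w => ct w y z + Real.log 2).sum
      = ((archAbsVal (K := K)).map fun w => ct w y z).sum
        + (archAbsVal (K := K)).card * Real.log 2 := by
    rw [Multiset.sum_map_add, Multiset.map_const', Multiset.sum_replicate, nsmul_eq_mul]
  have harch : ∀ a ∈ (archAbsVal (K := K)).map (fun w => ct w y z + Real.log 2), 0 ≤ a := by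
    intro a ha
    obtain ⟨w, -, rfl⟩ := Multiset.mem_map.1 ha
    have := neg_log_two_le_ct w hyz
    linarith
  have key : ct v y z ≤ ls (fun w => ct w y z) + (archAbsVal (K := K)).card * Real.log 2 := by
    unfold ls
    rcases hv with hv | hv
    · have h4 := Multiset.single_le_sum harch _
        (Multiset.mem_map_of_mem (fun w => ct w y z + Real.log 2) hv)
      rw [hsum] at h4
      have h5 : ct v y z + Real.log 2 ≤
          ((archAbsVal (K := K)).map fun w => ct w y z).sum
            + (archAbsVal (K := K)).card * Real.log 2 := h4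
      linarith
    · have h4 := Multiset.sum_nonneg harch
      rw [hsum] at h4
      have h5 : ct v y z ≤ ∑ᶠ w : nonarchAbsVal (K := K), ct w.val y z :=
        single_le_finsum (⟨v, hv⟩ : nonarchAbsVal (K := K)) (FS_ct hyz) hna
      linarith
  linarith

end two

end Pool.Agent.Helper29.TG
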