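import Mathlib

/-!
# Project TG: places with a product formula, contact of points

`K` is a field with an admissible family of absolute values (Mathlib: heights), for instance a
number field. `ls f` is the sum of a function over all absolute values of the family (with
multiplicity); `FS f` says that `f` vanishes at almost all non-archimedean absolute values.
-/

set_option autoImplicit false

namespace Pool.Agent.Helper29.TG

open Height AdmissibleAbsValues

variable {K : Type} [Field K]

/-- The maximum norm of a vector. -/
noncomputable def nm {ι : Type} (v : AbsoluteValue K ℝ) (x : ι → K) : ℝ := ⨆ i, v (x i)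

/-- The vector of the `2 × 2` minors. -/
def cr {ι : Type} (x y : ι → K) : ι × ι → K := fun q => x q.1 * y q.2 - x q.2 * y q.1

/-- The contact of two points at an absolute value. -/
noncomputable def ct {ι : Type} (v : AbsoluteValue K ℝ) (x y : ι → K) : ℝ :=
  Real.log (nm v x) + Real.log (nm v y) - Real.log (nm v (cr x y))

/-- The value of a linear form. -/
def lin {ι : Type} [Fintype ι] (a x : ι → K) : K := ∑ i, a i * x i

/-- The defect `D log |x| - log |Q(x)|` of a form `Q` of degree `D` at a point. -/
noncomputable def df {ι : Type} (v : AbsoluteValue K ℝ) (Q : MvPolynomial ι K) (D : ℕ)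
    (x : ι → K) : ℝ := D * Real.log (nm v x) - Real.log (v (MvPolynomial.eval x Q))

variable [AdmissibleAbsValues K]

/-- The sum over all absolute values of the family. -/
noncomputable def ls (f : AbsoluteValue K ℝ → ℝ) : ℝ :=
  ((archAbsVal (K := K)).map f).sum + ∑ᶠ v : nonarchAbsVal (K := K), f v.val

/-- The function vanishes at almost all non-archimedean absolute values. -/
def FS (f : AbsoluteValue K ℝ → ℝ) : Prop :=
  (Function.support fun v : nonarchAbsVal (K := K) => f v.val).Finite

/-- An absolute value of the family. -/
def Mem (v : AbsoluteValue K ℝ) : Prop :=
  v ∈ archAbsVal (K := K) ∨ v ∈ nonarchAbsVal (K := K)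

end Pool.Agent.Helper29.TG
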