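import Pool.Agent.Helper29.TG.CtSum

/-!
# Project TG: defects of forms (module of helper65)
-/

set_option autoImplicit false

namespace Pool.Agent.Helper29.TG

open Height AdmissibleAbsValues MvPolynomial

variable {K : Type} [Field K] {ι : Type} [Finite ι]

/-- the coefficients are integral at `v` -/
def CoeffInt (v : AbsoluteValue K ℝ) (Q : MvPolynomial ι K) : Prop := ∀ m, v (Q.coeff m) ≤ 1

omit [Finite ι] in
theorem Df_degree {Q : MvPolynomial ι K} {D : ℕ} (hQ : Q.IsHomogeneous D) {m : ι →₀ ℕ}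
    (hm : m ∈ Q.support) : ∑ i ∈ m.support, m i = D := by
  have := hQ (MvPolynomial.mem_support_iff.1 hm)
  rw [Finsupp.weight_apply] at this
  simpa [Finsupp.sum] using this

theorem Df_term_le (v : AbsoluteValue K ℝ) {Q : MvPolynomial ι K} {D : ℕ}
    (hQ : Q.IsHomogeneous D) (x : ι → K) {m : ι →₀ ℕ} (hm : m ∈ Q.support) {B : ℝ}
    (hB : v (Q.coeff m) ≤ B) :
    v (coeff m Q * ∏ i ∈ m.support, x i ^ m i) ≤ B * nm v x ^ D := by
  have h1 : ∏ i ∈ m.support, v (x i ^ m i) ≤ nm v x ^ D := by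
    rw [← Df_degree hQ hm, ← Finset.prod_pow_eq_pow_sum]
    refine Finset.prod_le_prod (fun i _ => v.nonneg _) fun i _ => ?_
    rw [map_pow]
    exact pow_le_pow_left₀ (v.nonneg _) (le_nm v x i) _
  rw [map_mul, map_prod]
  exact mul_le_mul hB h1 (Finset.prod_nonneg fun i _ => v.nonneg _) ((v.nonneg _).trans hB)

theorem Df_eval_le_na {v : AbsoluteValue K ℝ} (hv : IsNonarchimedean v) {Q : MvPolynomial ι K}
    {D : ℕ} (hQ : Q.IsHomogeneous D) {B : ℝ} (hB : 0 ≤ B)
    (hc : ∀ m ∈ Q.support, v (Q.coeff m) ≤ B) (x : ι → K) :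
    v (eval x Q) ≤ B * nm v x ^ D := by
  rw [eval_eq]
  rcases Q.support.eq_empty_or_nonempty with h0 | hs
  · rw [h0, Finset.sum_empty, map_zero]
    exact mul_nonneg hB (pow_nonneg (nm_nonneg v x) _)
  · obtain ⟨m, hm, h1⟩ := IsNonarchimedean.finset_image_add_of_nonempty hv
      (fun m => coeff m Q * ∏ i ∈ m.support, x i ^ m i) hs
    exact h1.trans (Df_term_le v hQ x hm (hc m hm))

theorem Df_eval_le (v : AbsoluteValue K ℝ) {Q : MvPolynomial ι K}
    {D : ℕ} (hQ : Q.IsHomogeneous D) {B : ℝ}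
    (hc : ∀ m ∈ Q.support, v (Q.coeff m) ≤ B) (x : ι → K) :
    v (eval x Q) ≤ Q.support.card * (B * nm v x ^ D) := by
  rw [eval_eq]
  refine (v.sum_le _ _).trans ?_
  rw [← nsmul_eq_mul]
  exact Finset.sum_le_card_nsmul _ _ _ fun m hm => Df_term_le v hQ x hm (hc m hm)

theorem df_nonneg {v : AbsoluteValue K ℝ} (hv : IsNonarchimedean v) {Q : MvPolynomial ι K} {D : ℕ}
    (hQ : Q.IsHomogeneous D) (hc : CoeffInt v Q) {x : ι → K} (hx : eval x Q ≠ 0) :
    0 ≤ df v Q D x := by
  have h1 := Df_eval_le_na hv hQ zero_le_one (fun m _ => hc m) x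
  rw [one_mul] at h1
  have h2 := Real.log_le_log (v.pos hx) h1
  rw [Real.log_pow] at h2
  unfold df
  linarith

open Classical in
/-- `log |Q(x)| ≤ D log |x| + c_v` with `c_v = 0` for almost all `v`; all places -/
theorem exists_log_eval_le [AdmissibleAbsValues K] {Q : MvPolynomial ι K} {D : ℕ}
    (hQ : Q.IsHomogeneous D) : ∃ c : AbsoluteValue K ℝ → ℝ, FS c ∧ (∀ v, Mem v → 0 ≤ c v) ∧
      ∀ v, Mem v → ∀ x : ι → K, eval x Q ≠ 0 →
        Real.log (v (eval x Q)) ≤ D * Real.log (nm v x) + c v := by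
  set c₁ : AbsoluteValue K ℝ → ℝ := fun v =>
    ∑ m ∈ Q.support, max 0 (Real.log (v (Q.coeff m))) with hc₁
  set c₂ : AbsoluteValue K ℝ → ℝ := fun v =>
    if v ∈ nonarchAbsVal (K := K) then 0 else Real.log (Q.support.card + 1) with hc₂
  have h1n : ∀ v, 0 ≤ c₁ v := fun v => Finset.sum_nonneg fun m _ => le_max_left _ _
  have h2n : ∀ v, 0 ≤ c₂ v := by
    intro v
    simp only [hc₂]
    split_ifs
    · exact le_rfl
    · refine Real.log_nonneg ?_
      have : (0 : ℝ) ≤ Q.support.card := Nat.cast_nonneg _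
      linarith
  have hFS1 : FS c₁ := by
    refine FS.sum _ fun m hm => (FS_log (mem_support_iff.1 hm)).mono fun v _ h0 => ?_
    rw [h0, max_self]
  have hFS2 : FS c₂ := by
    refine FS.zero.congr fun v hv => ?_
    simp only [hc₂]
    rw [if_pos hv]
  have hcoeff : ∀ v : AbsoluteValue K ℝ, ∀ m ∈ Q.support,
      v (Q.coeff m) ≤ Real.exp (c₁ v) := by
    intro v m hm
    have hpos : 0 < v (Q.coeff m) := v.pos (mem_support_iff.1 hm)
    rw [← Real.log_le_iff_le_exp hpos]
    refine (le_max_right 0 _).trans ?_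
    exact Finset.single_le_sum (f := fun m => max 0 (Real.log (v (Q.coeff m))))
      (fun m _ => le_max_left _ _) hm
  refine ⟨fun v => c₁ v + c₂ v, hFS1.add hFS2, fun v _ => add_nonneg (h1n v) (h2n v),
    fun v _ x hx => ?_⟩
  have hpos : 0 < v (eval x Q) := v.pos hx
  by_cases hv : v ∈ nonarchAbsVal (K := K)
  · have h1 := Df_eval_le_na (isNonarchimedean v hv) hQ (Real.exp_pos _).le (hcoeff v) x
    have h3 : nm v x ^ D ≠ 0 := by
      intro h0
      rw [h0, mul_zero] at h1
      linarith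
    have h2 := Real.log_le_log hpos h1
    rw [Real.log_mul (Real.exp_pos _).ne' h3, Real.log_exp, Real.log_pow] at h2
    have := h2n v
    linarith
  · have h1 := Df_eval_le v hQ (hcoeff v) x
    have h4 : v (eval x Q) ≤
        ((Q.support.card : ℝ) + 1) * (Real.exp (c₁ v) * nm v x ^ D) := by
      refine h1.trans (mul_le_mul_of_nonneg_right (by linarith) ?_)
      exact mul_nonneg (Real.exp_pos _).le (pow_nonneg (nm_nonneg v x) _)
    have hcard : (0 : ℝ) < (Q.support.card : ℝ) + 1 := by positivity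
    have h3 : nm v x ^ D ≠ 0 := by
      intro h0
      rw [h0, mul_zero, mul_zero] at h4
      linarith
    have h2 := Real.log_le_log hpos h4
    rw [Real.log_mul hcard.ne' (mul_ne_zero (Real.exp_pos _).ne' h3),
      Real.log_mul (Real.exp_pos _).ne' h3, Real.log_exp, Real.log_pow] at h2
    have h5 : c₂ v = Real.log (Q.support.card + 1) := by
      simp only [hc₂]
      rw [if_neg hv]
    change _ ≤ (D : ℝ) * Real.log (nm v x) + (c₁ v + c₂ v)
    rw [h5]
    linarith

omit [Finite ι] in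
theorem finite_not_coeffInt [AdmissibleAbsValues K] (Q : MvPolynomial ι K) :
    {v : AbsoluteValue K ℝ | v ∈ nonarchAbsVal (K := K) ∧ ¬ CoeffInt v Q}.Finite := by
  classical
  have h1 : ∀ m ∈ Q.support, ∃ B : Set (AbsoluteValue K ℝ), B.Finite ∧
      ∀ v ∈ nonarchAbsVal (K := K), v ∉ B → Real.log (v (Q.coeff m)) = 0 := fun m hm =>
    (FS_log (mem_support_iff.1 hm)).exists_finite
  choose! B hB hB' using h1
  have hfin : (⋃ m ∈ Q.support, B m).Finite :=
    Set.Finite.biUnion (Finset.finite_toSet _) fun m hm => hB m hm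
  refine hfin.subset ?_
  rintro v ⟨hv, hc⟩
  by_contra hcon
  apply hc
  intro m
  by_cases hm : m ∈ Q.support
  · have h2 : v ∉ B m := fun h => hcon (Set.mem_biUnion hm h)
    have h3 := hB' m hm v hv h2
    have hpos : 0 < v (Q.coeff m) := v.pos (mem_support_iff.1 hm)
    exact (Real.log_nonpos_iff hpos.le).1 h3.le
  · rw [notMem_support_iff.1 hm, map_zero]
    exact zero_le_one

theorem finite_arch [AdmissibleAbsValues K] :
    {v : AbsoluteValue K ℝ | v ∈ archAbsVal (K := K)}.Finite := by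
  classical
  refine ((archAbsVal (K := K)).toFinset.finite_toSet).subset fun v hv => ?_
  rw [Finset.mem_coe, Multiset.mem_toFinset]
  exact hv

theorem FS_df [AdmissibleAbsValues K] {Q : MvPolynomial ι K} {D : ℕ} {x : ι → K}
    (hx : eval x Q ≠ 0) (hx0 : x ≠ 0) : FS (fun v => df v Q D x) :=
  ((FS_nm hx0).mul_left (D : ℝ)).sub (FS_log hx)

theorem ls_df [AdmissibleAbsValues K] {Q : MvPolynomial ι K} {D : ℕ} {x : ι → K}
    (hx : eval x Q ≠ 0) (hx0 : x ≠ 0) : ls (fun v => df v Q D x) = D * logHeight x := by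
  unfold df
  rw [ls_sub ((FS_nm hx0).mul_left (D : ℝ)) (FS_log hx), ls_mul_left, ls_nm hx0, ls_log hx,
    sub_zero]

open Classical in
/-- the defects at the places outside `B` -/
theorem exists_ls_df_le [AdmissibleAbsValues K] {Q : MvPolynomial ι K} {D : ℕ}
    (hQ : Q.IsHomogeneous D) (B : Set (AbsoluteValue K ℝ)) :
    ∃ C : ℝ, ∀ x : ι → K, x ≠ 0 → eval x Q ≠ 0 →
      FS (fun v => if v ∈ B then 0 else df v Q D x) ∧
        ls (fun v => if v ∈ B then 0 else df v Q D x) ≤ D * logHeight x + C := by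
  obtain ⟨c, hc, hc0, hcle⟩ := exists_log_eval_le hQ
  refine ⟨ls c, fun x hx0 hx => ?_⟩
  have hFS : FS (fun v => if v ∈ B then 0 else df v Q D x) := by
    refine (FS_df (D := D) hx hx0).mono fun v _ h0 => ?_
    split_ifs
    · rfl
    · exact h0
  refine ⟨hFS, ?_⟩
  have h1 := ls_mono hFS ((FS_df (D := D) hx hx0).add hc) (fun v hv => by
    have h2 := hcle v hv x hx
    have h3 := hc0 v hv
    split_ifs
    · unfold df
      linarith
    · linarith)
  rwa [ls_add (FS_df hx hx0) hc, ls_df hx hx0] at h1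

end Pool.Agent.Helper29.TG
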