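import Pool.Agent.Helper33.SS.Final
import Pool.Agent.Helper33.GC.Sets

/-!
# Project TG: unions of progressions and super-sparse sets
-/

set_option autoImplicit false

namespace Pool.Agent.Helper29.TG

open MvPolynomial
open Pool.Agent.Helper33.SS
open Pool.Agent.Helper36 (APSet APSet_univ APSet_of_evClosed krullDim_le_two)

theorem sgood_univ : SGood Set.univ := by
  obtain ⟨T, hT⟩ := APSet_univ
  exact SGood.of_AP ⟨T, hT⟩

theorem sgood_inter {S T : Set ℕ} (hS : SGood S) (hT : SGood T) : SGood (S ∩ T) := by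
  obtain ⟨P, A, hA, rfl⟩ := hS
  obtain ⟨Q, B, hB, rfl⟩ := hT
  obtain ⟨U, hU⟩ := Pool.Agent.Helper33.GC.APSet_inter P Q
  refine ⟨U, (APSet P ∪ A) ∩ (APSet Q ∪ B) ∩ (A ∪ B), (hA.union hB).mono
    Set.inter_subset_right, ?_⟩
  rw [← hU]
  ext n
  simp only [Set.mem_inter_iff, Set.mem_union]
  tauto

theorem sgood_finset_union {ι : Type*} (s : Finset ι) {S : ι → Set ℕ}
    (h : ∀ i ∈ s, SGood (S i)) : SGood {n | ∃ i ∈ s, n ∈ S i} := by
  classical
  induction s using Finset.induction_on with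
  | empty =>
    have h1 : {n : ℕ | ∃ i ∈ (∅ : Finset ι), n ∈ S i} = ∅ := by
      ext n
      simp
    rw [h1]
    exact SGood.of_sparse Sparse.empty
  | insert i s hi ih =>
    have h1 : {n : ℕ | ∃ j ∈ insert i s, n ∈ S j} = S i ∪ {n | ∃ j ∈ s, n ∈ S j} := by
      ext n
      simp
    rw [h1]
    exact (h i (Finset.mem_insert_self i s)).union
      (ih fun j hj => h j (Finset.mem_insert_of_mem hj))

/-- From closed sets with finitely many periodic points to all closed sets of dimension at most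
one (all closed sets if `N ≤ 2`). -/
theorem sgood_of_sparse_parts {N d : ℕ}
    (F : Fin (N + 1) → MvPolynomial (Fin (N + 1)) ℂ) (hF : ∀ i, (F i).IsHomogeneous d)
    (hnz : ∀ x : Fin (N + 1) → ℂ, (∀ i, eval x (F i) = 0) → x = 0)
    (a : Fin (N + 1) → ℂ) (ha : a ≠ 0)
    (V : Set (MvPolynomial (Fin (N + 1)) ℂ)) (hV : ∀ g ∈ V, ∃ e : ℕ, g.IsHomogeneous e)
    (hone : (∀ n k, 1 ≤ k → ∀ c : ℂ, (ev F)^[n + k] a ≠ c • (ev F)^[n] a) →
      ringKrullDim (MvPolynomial (Fin (N + 1)) ℂ ⧸ Ideal.span V) ≤ 2 →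
      ∀ W : Set (MvPolynomial (Fin (N + 1)) ℂ), (∀ g ∈ W, ∃ e : ℕ, g.IsHomogeneous e) →
      (∀ x, InZ W x → InZ V x) →
      (∀ k, 1 ≤ k → ∃ B : Finset (Fin (N + 1) → ℂ), ∀ x : Fin (N + 1) → ℂ, x ≠ 0 →
        (∀ n, InZ W ((ev F)^[k * n] x)) → ∃ b ∈ B, ∃ c : ℂ, x = c • b) →
      Sparse {n | InZ W ((ev F)^[n] a)})
    (hsmall : N ≤ 2 ∨ ringKrullDim (MvPolynomial (Fin (N + 1)) ℂ ⧸ Ideal.span V) ≤ 2) :
    SGood {n | InZ V ((ev F)^[n] a)} := by
  have hev0 : ∀ x : Fin (N + 1) → ℂ, ev F x = 0 → x = 0 := fun x h => hnz x fun i => congrFun h i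
  have horb0 : ∀ n, (ev F)^[n] a ≠ 0 := by
    intro n
    induction n with
    | zero => exact ha
    | succ n ih =>
      rw [Function.iterate_succ_apply']
      exact fun h => ih (hev0 _ h)
  by_cases hper : ∃ n k, 1 ≤ k ∧ ∃ c : ℂ, (ev F)^[n + k] a = c • (ev F)^[n] a
  · -- preperiodic points
    obtain ⟨n₀, k, hk, c, hc⟩ := hper
    refine SGood.of_AP (APSet_of_evClosed hk ((Set.finite_Iio n₀).subset ?_))
    rintro n ⟨hn1, hn2⟩
    by_contra hlt
    apply hn2
    have hle : n₀ ≤ n := not_lt.1 hlt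
    obtain ⟨m, rfl⟩ := Nat.exists_eq_add_of_le hle
    have h1 : (ev F)^[n₀ + m + k] a = c ^ (d ^ m) • (ev F)^[n₀ + m] a := by
      rw [show n₀ + m + k = m + (n₀ + k) by ring, Function.iterate_add_apply, hc, evc_smul hF,
        ← Function.iterate_add_apply, add_comm m n₀]
    have hc0 : c ≠ 0 := by
      rintro rfl
      exact horb0 (n₀ + k) (by rw [hc, zero_smul])
    show InZ V ((ev F)^[n₀ + m + k] a)
    rw [h1, inZ_smul hV (pow_ne_zero _ hc0)]
    exact hn1
  · push Not at hper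
    by_cases hzero : ∀ g ∈ V, g = 0
    · -- the whole space
      refine SGood.of_AP (APSet_of_evClosed Nat.one_pos (Set.finite_empty.subset ?_))
      rintro n ⟨hn1, hn2⟩
      apply hn2
      intro g hg
      rw [hzero g hg, map_zero]
    · have hdim : ringKrullDim (MvPolynomial (Fin (N + 1)) ℂ ⧸ Ideal.span V) ≤ 2 := by
        rcases hsmall with h | h
        · push Not at hzero
          obtain ⟨g, hg, hg0⟩ := hzero
          exact krullDim_le_two h V hg hg0
        · exact h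
      obtain ⟨r', W, hW1, hW2, hW3⟩ := dim_split F hF V hV hdim
      have hset2 : {n | InZ V ((ev F)^[n] a)} = ⋃ l, {n | InZ (W l) ((ev F)^[n] a)} := by
        ext n
        simp only [Set.mem_ofPred_eq, Set.mem_iUnion]
        exact hW2 _
      rw [hset2]
      refine SGood.iUnion fun l => ?_
      rcases hW3 l with ⟨k, hk, hst⟩ | hB
      · refine SGood.of_AP (APSet_of_evClosed hk (Set.finite_empty.subset ?_))
        rintro n ⟨hn1, hn2⟩
        apply hn2
        show InZ (W l) ((ev F)^[n + k] a)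
        rw [add_comm n k, Function.iterate_add_apply]
        exact hst _ hn1
      · exact SGood.of_sparse (hone hper hdim (W l) (hW1 l)
          (fun x h => (hW2 x).2 ⟨l, h⟩) hB)

end Pool.Agent.Helper29.TG
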