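import Pool.Agent.Helper29.TG.Count
import Pool.Agent.Helper88.TL.OfPlace
import Pool.Agent.Helper29.TG.SG
import Pool.Agent.Helper38.TQ.CurveSet

/-!
# Project TG: tower gaps over number fields (helper29)
-/

set_option autoImplicit false

namespace Pool.Agent.Helper29.TG

open Height AdmissibleAbsValues MvPolynomial
open Pool.Agent.Helper33.SS (Sparse InZ ev SGood dim_split)
open Pool.Agent.Helper36 (iter iter_succ step growth APSet_of_evClosed krullDim_le_two)

/-- The determinant of the Jacobian matrix. -/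
noncomputable def jdet {K : Type} [Field K] {ν : ℕ}
    (F : Fin (ν + 1) → MvPolynomial (Fin (ν + 1)) K) : MvPolynomial (Fin (ν + 1)) K :=
  (Matrix.of fun i j => pderiv j (F i)).det

theorem jdet_hom {K : Type} [Field K] {ν d : ℕ}
    {F : Fin (ν + 1) → MvPolynomial (Fin (ν + 1)) K} (hF : ∀ i, (F i).IsHomogeneous d) :
    (jdet F).IsHomogeneous ((ν + 1) * (d - 1)) := by
  unfold jdet
  rw [Matrix.det_apply]
  refine IsHomogeneous.sum _ _ _ fun σ _ => ?_
  have h1 : (∏ i, (Matrix.of fun i j => pderiv j (F i)) (σ i) i).IsHomogeneous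
      ((ν + 1) * (d - 1)) := by
    have h2 := IsHomogeneous.prod Finset.univ
      (fun i => (Matrix.of fun i j => pderiv j (F i)) (σ i) i) (fun _ => d - 1)
      (fun i _ => by simpa using (hF (σ i)).pderiv)
    simpa using h2
  rcases Int.units_eq_one_or (Equiv.Perm.sign σ) with h | h
  · rw [h, one_smul]
    exact h1
  · rw [h]
    simpa using h1.neg

theorem pEq_of_cr {K : Type} [Field K] {ι : Type} {x y : ι → K} (hx : x ≠ 0) (hy : y ≠ 0)
    (h : cr x y = 0) : Pool.Agent.Helper36.PEq x y := by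
  obtain ⟨i, hi⟩ := Function.ne_iff.1 hx
  have hi : x i ≠ 0 := hi
  have h1 : ∀ j, y j = (y i / x i) * x j := by
    intro j
    have h2 := congrFun h (i, j)
    simp only [cr, Pi.zero_apply] at h2
    field_simp
    linear_combination h2
  refine ⟨y i / x i, ?_, funext h1⟩
  intro h0
  apply hy
  funext j
  rw [h1, h0, zero_mul]
  rfl

/-- almost all places are good for `F` -/
theorem exists_good_reduction {K : Type} [Field K] [NumberField K] [Algebra K ℂ] {ν d : ℕ}
    (F : Fin (ν + 1) → MvPolynomial (Fin (ν + 1)) K) (hF : ∀ i, (F i).IsHomogeneous d)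
    (hnz : ∀ x : Fin (ν + 1) → ℂ, (∀ i, aeval x (F i) = 0) → x = 0) :
    ∃ B : Set (AbsoluteValue K ℝ), B.Finite ∧ ∀ v ∈ nonarchAbsVal (K := K), v ∉ B →
      v 2 = 1 ∧ (∀ i m, v ((F i).coeff m) ≤ 1) ∧
      ∀ y : Fin (ν + 1) → K, (∀ i, v (y i) ≤ 1) → (∃ i, v (y i) = 1) →
        ∃ i, v (eval y (F i)) = 1 := by
  classical
  obtain ⟨M, q, -, hq⟩ := Pool.Agent.Helper36.exists_nullstellensatz (L := ℂ) F hF hnz
  obtain ⟨B₂, hB₂, hB₂'⟩ := (FS_log (K := K) (x := 2) two_ne_zero).exists_finite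
  refine ⟨B₂ ∪ (⋃ i, {v | v ∈ nonarchAbsVal (K := K) ∧ ¬ CoeffInt v (F i)}) ∪
    (⋃ a, {v | v ∈ nonarchAbsVal (K := K) ∧ ¬ CoeffInt v (q a)}),
    (hB₂.union (Set.finite_iUnion fun i => finite_not_coeffInt (F i))).union
      (Set.finite_iUnion fun a => finite_not_coeffInt (q a)), fun v hv hvB => ?_⟩
  simp only [Set.mem_union, Set.mem_iUnion, Set.mem_ofPred_eq, not_or, not_exists, not_and,
    not_not] at hvB
  obtain ⟨⟨h1, h2⟩, h3⟩ := hvB
  have hna := isNonarchimedean v hv
  have hint : ∀ i, CoeffInt v (F i) := fun i => h2 i hv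
  have hqint : ∀ a, CoeffInt v (q a) := fun a => h3 a hv
  have hle : ∀ (Q : MvPolynomial (Fin (ν + 1)) K), CoeffInt v Q → ∀ y : Fin (ν + 1) → K,
      (∀ i, v (y i) ≤ 1) → v (eval y Q) ≤ 1 := by
    intro Q hQ y hy
    rw [eval_eq]
    have h5 : ∀ (s : Finset (Fin (ν + 1) →₀ ℕ)) (f : (Fin (ν + 1) →₀ ℕ) → K),
        (∀ m ∈ s, v (f m) ≤ 1) → v (∑ m ∈ s, f m) ≤ 1 := by
      intro s f
      induction s using Finset.induction_on with
      | empty => intro _; simp
      | insert m s hm ih =>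
        intro h
        rw [Finset.sum_insert hm]
        exact (hna _ _).trans (max_le (h m (Finset.mem_insert_self _ _))
          (ih fun m' hm' => h m' (Finset.mem_insert_of_mem hm')))
    apply h5
    intro m _
    rw [map_mul, map_prod]
    refine mul_le_one₀ (hQ m) (Finset.prod_nonneg fun _ _ => v.nonneg _) ?_
    exact Finset.prod_le_one (fun _ _ => v.nonneg _) fun i _ => by
      rw [map_pow]
      exact pow_le_one₀ (v.nonneg _) (hy i)
  refine ⟨?_, fun i m => hint i m, fun y hy hy1 => ?_⟩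
  · have h6 := hB₂' v hv h1
    have h7 : 0 < v 2 := v.pos two_ne_zero
    have h8 := Real.log_eq_zero.1 h6
    rcases h8 with h8 | h8 | h8
    · exact absurd h8 h7.ne'
    · exact h8
    · linarith
  · obtain ⟨k, hk⟩ := hy1
    by_contra hcon
    push Not at hcon
    have hlt : ∀ i, v (eval y (F i)) < 1 := fun i =>
      lt_of_le_of_ne (hle _ (hint i) y hy) (hcon i)
    have h5 : ∀ (s : Finset (Fin (ν + 1))) (f : Fin (ν + 1) → K),
        (∀ m ∈ s, v (f m) < 1) → v (∑ m ∈ s, f m) < 1 := by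
      intro s f
      induction s using Finset.induction_on with
      | empty => intro _; simp
      | insert m s hm ih =>
        intro h
        rw [Finset.sum_insert hm]
        exact (hna _ _).trans_lt (max_lt (h m (Finset.mem_insert_self _ _))
          (ih fun m' hm' => h m' (Finset.mem_insert_of_mem hm')))
    have h6 := congrArg (eval y) (hq k)
    rw [map_sum, map_pow, eval_X] at h6
    have h7 : v (∑ j, eval y (q (k, j) * F j)) < 1 := by
      apply h5
      intro j _
      rw [map_mul, map_mul]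
      calc v (eval y (q (k, j))) * v (eval y (F j)) ≤ 1 * v (eval y (F j)) :=
            mul_le_mul_of_nonneg_right (hle _ (hqint _) y hy) (v.nonneg _)
        _ < 1 := by rw [one_mul]; exact hlt j
    rw [h6, map_pow, hk, one_pow] at h7
    exact lt_irrefl _ h7

theorem step_ne_zero' {K : Type} [Field K] [Algebra K ℂ] {ν : ℕ}
    (F : Fin (ν + 1) → MvPolynomial (Fin (ν + 1)) K)
    (hnz : ∀ x : Fin (ν + 1) → ℂ, (∀ i, aeval x (F i) = 0) → x = 0)
    {x : Fin (ν + 1) → K} (hx : x ≠ 0) : step F x ≠ 0 := by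
  have hinj : Function.Injective (algebraMap K ℂ) := FaithfulSMul.algebraMap_injective K ℂ
  intro h
  apply hx
  have h1 : (fun i => algebraMap K ℂ (x i)) = 0 := by
    apply hnz
    intro i
    have h2 : aeval (fun i => algebraMap K ℂ (x i)) (F i) =
        algebraMap K ℂ (aeval x (F i)) := aeval_algebraMap_apply (A := K) (B := ℂ) x (F i)
    rw [h2]
    have h3 : aeval x (F i) = 0 := congrFun h i
    rw [h3, map_zero]
  funext i
  apply hinj
  have := congrFun h1 i
  simpa using this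

/-- **Tower gaps over number fields**, one set without positive-dimensional periodic part. -/
theorem sparse_one {K : Type} [Field K] [NumberField K] [Algebra K ℂ] {ν d : ℕ} (hd : 2 ≤ d)
    (F : Fin (ν + 1) → MvPolynomial (Fin (ν + 1)) K) (hF : ∀ i, (F i).IsHomogeneous d)
    (hnz : ∀ x : Fin (ν + 1) → ℂ, (∀ i, aeval x (F i) = 0) → x = 0)
    (a : Fin (ν + 1) → K) (ha : a ≠ 0)
    (hnp : ∀ n m, n < m → ¬ Pool.Agent.Helper36.PEq (iter F a n) (iter F a m))
    (n₀ : ℕ) (hJ : ∀ n, n₀ ≤ n → eval (iter F a n) (jdet F) ≠ 0)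
    (V : Set (MvPolynomial (Fin (ν + 1)) ℂ)) (hV : ∀ g ∈ V, ∃ e : ℕ, g.IsHomogeneous e)
    (hdim : ringKrullDim (MvPolynomial (Fin (ν + 1)) ℂ ⧸ Ideal.span V) ≤ 2)
    (W : Set (MvPolynomial (Fin (ν + 1)) ℂ)) (hW : ∀ g ∈ W, ∃ e : ℕ, g.IsHomogeneous e)
    (hWV : ∀ x, InZ W x → InZ V x)
    (hfin : ∀ k, 1 ≤ k → ∃ B : Finset (Fin (ν + 1) → ℂ), ∀ z : Fin (ν + 1) → ℂ, z ≠ 0 →
      (∀ n, InZ W ((ev fun i => MvPolynomial.map (algebraMap K ℂ) (F i))^[k * n] z)) →
        ∃ b ∈ B, ∃ c : ℂ, z = c • b) :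
    Sparse {n | InZ W (fun j => algebraMap K ℂ (iter F a n j))} := by
  classical
  set x : ℕ → Fin (ν + 1) → K := fun n => iter F a n with hxdef
  have hx : ∀ n, x n ≠ 0 := by
    intro n
    induction n with
    | zero => exact ha
    | succ n ih =>
      show iter F a (n + 1) ≠ 0
      rw [iter_succ]
      exact step_ne_zero' F hnz ih
  have hcr : ∀ n m, n ≠ m → cr (x n) (x m) ≠ 0 := by
    intro n m hnm h
    rcases lt_or_gt_of_ne hnm with h1 | h1
    · exact hnp n m h1 (pEq_of_cr (hx n) (hx m) h)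
    · refine hnp m n h1 (pEq_of_cr (hx m) (hx n) ?_)
      funext q
      have := congrFun h q
      simp only [cr, Pi.zero_apply] at this ⊢
      linear_combination -this
  set S : Set ℕ := {n | InZ W (fun j => algebraMap K ℂ (x n j))} with hS
  by_cases hSf : S.Finite
  · exact Sparse.of_finite hSf
  have hSi : S.Infinite := hSf
  -- heights
  obtain ⟨C, hC⟩ := Pool.Agent.Helper36.exists_logHeight_step_ge F hF hnz
  have hstep : ∃ C : ℝ, ∀ n, 2 * logHeight (x n) ≤ logHeight (x (n + 1)) + C := by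
    refine ⟨-C, fun n => ?_⟩
    have h1 := hC (x n)
    have h2 : x (n + 1) = step F (x n) := iter_succ F a n
    rw [h2]
    have h3 : (2 : ℝ) * logHeight (x n) ≤ d * logHeight (x n) :=
      mul_le_mul_of_nonneg_right (by exact_mod_cast hd) (logHeight_nonneg _)
    linarith
  have hgrow : ∃ m₀, ∀ n, m₀ ≤ n → (2 : ℝ) ^ (n - m₀) ≤ logHeight (x n) := by
    rcases growth (L := ℂ) hd F hF hnz x hx (fun n => iter_succ F a n) with
      ⟨n, m, hnm, h⟩ | ⟨m₀, hm₀⟩
    · exact absurd h (hnp n m hnm)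
    · refine ⟨m₀, fun n hn => le_trans ?_ (hm₀ n hn)⟩
      exact pow_le_pow_left₀ (by norm_num) (by exact_mod_cast hd) _
  -- the curve
  have hcurve : OnCurveS S x := by
    intro m
    obtain ⟨e, Q, hQ, hQ0, hQv⟩ := Pool.Agent.Helper38.TQ.exists_relation_linear hV hdim
      (fun j i => algebraMap K ℂ (m j i))
    obtain ⟨ρ, hρ⟩ := Pool.Agent.Helper36.exists_mapLin_ne_zero (K := K) hQ0
    refine ⟨_, e, hρ, Pool.Agent.Helper36.mapLin_isHomogeneous ρ hQ, fun n hn => ?_⟩
    rw [Pool.Agent.Helper36.eval_mapLin]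
    have h1 := hQv _ (hWV _ hn)
    have h2 : (fun j => algebraMap K ℂ (pl m (x n) j)) =
        fun j => ∑ i, algebraMap K ℂ (m j i) * algebraMap K ℂ (x n i) := by
      funext j
      simp only [pl, lin]
      rw [map_sum]
      exact Finset.sum_congr rfl fun i _ => map_mul _ _ _
    rw [h2, h1, map_zero]
  obtain ⟨B, hB, hBgood⟩ := exists_good_reduction F hF hnz
  obtain ⟨v, hv, hvB, i, hi, n, hn, hi0, hin, hct, hdf⟩ := exists_good_place hx hSi
    (fun n _ m _ h => hcr n m h) hcurve hstep hgrow (jdet_hom hF) (n₀ := n₀) hJ hB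
  obtain ⟨h2, hint, hgood⟩ := hBgood v hv hvB
  refine Pool.Agent.Helper88.TL.sparse_of_place v hv h2 F d hd hF hint hgood x hx (fun n => ⟨1, one_ne_zero, ?_⟩) hcr
    i n hin hct (fun l hl1 hl2 => ⟨hJ l (hi0.trans hl1), hdf l hl1 hl2⟩) W hW hfin
  rw [one_smul]
  exact iter_succ F a n

/-- A number field model of algebraic data. -/
theorem exists_model {σ τ υ : Type} [Finite τ] [Finite σ] [Finite υ]
    (f : τ → MvPolynomial σ ℂ) (hf : ∀ i m, IsAlgebraic ℚ ((f i).coeff m))
    (a : υ → ℂ) (ha : ∀ i, IsAlgebraic ℚ (a i)) :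
    ∃ (K : Type) (_ : Field K) (_ : NumberField K) (_ : Algebra K ℂ)
      (F : τ → MvPolynomial σ K) (α : υ → K),
      (∀ i, MvPolynomial.map (algebraMap K ℂ) (F i) = f i) ∧ ∀ i, algebraMap K ℂ (α i) = a i := by
  classical
  set T : Set ℂ := (⋃ i, ((f i).coeff '' ((f i).support : Set (σ →₀ ℕ)))) ∪ Set.range a
    with hT
  have hTfin : T.Finite := by
    apply Set.Finite.union
    · exact Set.finite_iUnion fun i => (Finset.finite_toSet _).image _
    · exact Set.finite_range a
  have hTint : ∀ x ∈ T, IsIntegral ℚ x := by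
    rintro x (hx | ⟨i, rfl⟩)
    · rw [Set.mem_iUnion] at hx
      obtain ⟨i, m, _, rfl⟩ := hx
      exact (hf i m).isIntegral
    · exact (ha i).isIntegral
  let K : IntermediateField ℚ ℂ := IntermediateField.adjoin ℚ T
  have : Finite T := hTfin
  have hfd : FiniteDimensional ℚ K := IntermediateField.finiteDimensional_adjoin hTint
  have hnf : NumberField K := ⟨⟩
  have hcoef : ∀ i m, (f i).coeff m ∈ K := by
    intro i m
    by_cases hm : m ∈ (f i).support
    · apply IntermediateField.subset_adjoin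
      left
      rw [Set.mem_iUnion]
      exact ⟨i, m, hm, rfl⟩
    · rw [MvPolynomial.notMem_support_iff.1 hm]
      exact zero_mem K
  have hlift : ∀ i, ∃ F : MvPolynomial σ K, MvPolynomial.map (algebraMap K ℂ) F = f i := by
    intro i
    refine ⟨∑ m ∈ (f i).support, MvPolynomial.monomial m (⟨(f i).coeff m, hcoef i m⟩ : K), ?_⟩
    rw [map_sum]
    conv_rhs => rw [(f i).as_sum]
    refine Finset.sum_congr rfl fun m _ => ?_
    rw [MvPolynomial.map_monomial]
    rfl
  choose F hF using hlift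
  exact ⟨K, inferInstance, hnf, inferInstance, F,
    fun i => ⟨a i, IntermediateField.subset_adjoin _ _ (Or.inr ⟨i, rfl⟩)⟩, hF, fun i => rfl⟩

theorem jdet_map {K L : Type} [Field K] [Field L] {ν : ℕ} (φ : K →+* L)
    (F : Fin (ν + 1) → MvPolynomial (Fin (ν + 1)) K) :
    jdet (fun i => MvPolynomial.map φ (F i)) = MvPolynomial.map φ (jdet F) := by
  unfold jdet
  rw [RingHom.map_det]
  congr 1
  ext1 i j
  simp only [Matrix.of_apply, RingHom.mapMatrix_apply, Matrix.map_apply]
  exact pderiv_map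

/-- **Theorem TG.** Endomorphisms of projective space over the algebraic numbers, algebraic
points with finitely many critical iterates, closed sets of dimension at most one. -/
theorem sgood_algebraic (N d : ℕ) (hd : 2 ≤ d)
    (f : Fin (N + 1) → MvPolynomial (Fin (N + 1)) ℂ) (hf : ∀ i, (f i).IsHomogeneous d)
    (hnz : ∀ x : Fin (N + 1) → ℂ, (∀ i, eval x (f i) = 0) → x = 0)
    (hfalg : ∀ i m, IsAlgebraic ℚ ((f i).coeff m))
    (a : Fin (N + 1) → ℂ) (ha : a ≠ 0) (haalg : ∀ i, IsAlgebraic ℚ (a i))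
    (n₀ : ℕ) (hJ : ∀ n, n₀ ≤ n → eval ((ev f)^[n] a) (jdet f) ≠ 0)
    (V : Set (MvPolynomial (Fin (N + 1)) ℂ)) (hV : ∀ g ∈ V, ∃ e : ℕ, g.IsHomogeneous e)
    (hsmall : N ≤ 2 ∨ ringKrullDim (MvPolynomial (Fin (N + 1)) ℂ ⧸ Ideal.span V) ≤ 2) :
    SGood {n | InZ V ((ev f)^[n] a)} := by
  classical
  refine sgood_of_sparse_parts f hf hnz a ha V hV (fun hnp hdim' W hW hWV hfin => ?_) hsmall
  obtain ⟨K, _, _, _, F, α, hFf, hαa⟩ := exists_model f hfalg a haalg
  have hinj : Function.Injective (algebraMap K ℂ) := FaithfulSMul.algebraMap_injective K ℂ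
  have hff : (fun i => MvPolynomial.map (algebraMap K ℂ) (F i)) = f := funext hFf
  have hF : ∀ i, (F i).IsHomogeneous d := fun i =>
    MvPolynomial.IsHomogeneous.of_map hinj (by rw [hFf]; exact hf i)
  have haev : ∀ (x : Fin (N + 1) → ℂ) i, aeval x (F i) = eval x (f i) := by
    intro x i
    rw [← hFf i, eval_map, aeval_def]
  have hiter : ∀ n, (ev f)^[n] a = fun i => algebraMap K ℂ (iter F α n i) := by
    intro n
    induction n with
    | zero =>
      funext i
      exact (hαa i).symm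
    | succ n ih =>
      rw [Function.iterate_succ_apply', ih]
      funext i
      rw [iter_succ]
      show eval _ (f i) = _
      rw [← haev]
      exact aeval_algebraMap_apply (A := K) (B := ℂ) (iter F α n) (F i)
  have hα : α ≠ 0 := by
    intro h
    apply ha
    funext i
    rw [← hαa i, h, Pi.zero_apply, map_zero, Pi.zero_apply]
  have hres := sparse_one hd F hF (fun x hx => hnz x fun i => by rw [← haev]; exact hx i) α hα
    (fun n m hnm h => ?_) n₀ (fun n hn h => ?_) V hV hdim' W hW hWV (by rw [hff]; exact hfin)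
  · refine hres.mono fun n hn => ?_
    show InZ W _
    rw [← hiter]
    exact hn
  · obtain ⟨c, hc, h1⟩ := h
    apply hnp n (m - n) (by omega) (algebraMap K ℂ c)
    rw [show n + (m - n) = m by omega, hiter, hiter]
    funext i
    have h2 := congrFun h1 i
    simp only [Pi.smul_apply, smul_eq_mul] at h2 ⊢
    rw [h2, map_mul]
  · apply hJ n hn
    rw [hiter, ← hff, jdet_map, eval_map]
    have h1 := eval₂_comp (algebraMap K ℂ) (iter F α n) (jdet F)
    rw [h, map_zero] at h1
    exact h1.symm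

end Pool.Agent.Helper29.TG
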