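import Pool.Agent.Helper33.SS.SparseOps

/-!
# Super-sparse sets as finite unions of sets with exponential gaps
-/

set_option autoImplicit false

namespace Pool.Agent.Helper29.TG

open Pool.Agent.Helper33.SS (Sparse)

theorem exists_gaps {E : Set ℕ} (hE : Sparse E) :
    ∃ (A c : ℝ) (R : ℕ) (G : Fin R → Set ℕ), 1 < A ∧ 0 < c ∧ E = ⋃ j, G j ∧
      ∀ j, ∀ n ∈ G j, ∀ m ∈ G j, n < m → c * A ^ n < m := by
  classical
  obtain ⟨A, c, R, hA, hc, h⟩ := hE
  set col : ℕ → ℕ := fun n => (E ∩ Set.Iio n).ncard with hcol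
  refine ⟨A, c, R + 1, fun j => {n | n ∈ E ∧ col n % (R + 1) = j}, hA, hc, ?_, ?_⟩
  · ext n
    simp only [Set.mem_iUnion, Set.mem_ofPred_eq]
    constructor
    · intro hn
      exact ⟨⟨col n % (R + 1), Nat.mod_lt _ (Nat.succ_pos R)⟩, hn, rfl⟩
    · rintro ⟨_, hn, _⟩
      exact hn
  · rintro j n ⟨hn, hnj⟩ m ⟨hm, hmj⟩ hnm
    by_contra hcon
    have h1 := h n m (not_lt.1 hcon)
    have hfin : ∀ k : ℕ, (E ∩ Set.Iio k).Finite := fun k =>
      (Set.finite_Iio k).subset Set.inter_subset_right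
    have hfin2 : (E ∩ Set.Ico n m).Finite := (Set.finite_Ico n m).subset Set.inter_subset_right
    have h2 : col m = col n + (E ∩ Set.Ico n m).ncard := by
      simp only [hcol]
      rw [← Set.ncard_union_eq _ (hfin n) hfin2]
      · congr 1
        ext k
        simp only [Set.mem_inter_iff, Set.mem_Iio, Set.mem_union, Set.mem_Ico]
        constructor
        · rintro ⟨hk, hkm⟩
          rcases lt_or_ge k n with h3 | h3
          · exact Or.inl ⟨hk, h3⟩
          · exact Or.inr ⟨hk, h3, hkm⟩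
        · rintro (⟨hk, h3⟩ | ⟨hk, h3, h4⟩)
          · exact ⟨hk, h3.trans hnm⟩
          · exact ⟨hk, h4⟩
      · rw [Set.disjoint_left]
        rintro k ⟨_, h3⟩ ⟨_, h4, _⟩
        exact absurd h3 (not_lt.2 h4)
    have h3 : (E ∩ Set.Icc n m).ncard = (E ∩ Set.Ico n m).ncard + 1 := by
      have h4 : E ∩ Set.Icc n m = insert m (E ∩ Set.Ico n m) := by
        ext k
        simp only [Set.mem_inter_iff, Set.mem_Icc, Set.mem_insert_iff, Set.mem_Ico]
        constructor
        · rintro ⟨hk, h5, h6⟩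
          rcases h6.lt_or_eq with h7 | h7
          · exact Or.inr ⟨hk, h5, h7⟩
          · exact Or.inl h7
        · rintro (rfl | ⟨hk, h5, h6⟩)
          · exact ⟨hm, hnm.le, le_rfl⟩
          · exact ⟨hk, h5, h6.le⟩
      rw [h4, Set.ncard_insert_of_notMem _ hfin2]
      rintro ⟨_, _, h5⟩
      exact lt_irrefl _ h5
    have hpos : 1 ≤ (E ∩ Set.Ico n m).ncard := by
      rw [Nat.one_le_iff_ne_zero, Ne, Set.ncard_eq_zero hfin2, ← Ne, ← Set.nonempty_iff_ne_empty]
      exact ⟨n, hn, le_rfl, hnm⟩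
    have hdvd : (R + 1) ∣ (E ∩ Set.Ico n m).ncard := by
      have h5 : col n ≡ col m [MOD (R + 1)] := by
        show col n % (R + 1) = col m % (R + 1)
        rw [hnj, hmj]
      have h6 := (Nat.modEq_iff_dvd' (by omega : col n ≤ col m)).1 h5
      rw [h2, Nat.add_sub_cancel_left] at h6
      exact h6
    have := Nat.le_of_dvd hpos hdvd
    omega

end Pool.Agent.Helper29.TG
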