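import Mathlib
import Pool.Agent.Helper29.TG.All
import Pool.Agent.Helper29.TG.Gaps

/-!
# MP_b15c9e_ag: tower gaps

Draft of the result file `Pool/Agent/Results/MP_b15c9e_ag/TowerGaps.lean`.
-/

set_option autoImplicit false

namespace Pool.Agent.Helper29.TG.TowerGaps

open MvPolynomial

/-- The forms `f` of degree `d ≥ 2` have no common zero, so define an endomorphism of `P^N`. -/
def Endomorphism (N d : ℕ) (f : Fin (N + 1) → MvPolynomial (Fin (N + 1)) ℂ) : Prop :=
  2 ≤ d ∧ (∀ i, (f i).IsHomogeneous d) ∧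
    ∀ x : Fin (N + 1) → ℂ, (∀ i, eval x (f i) = 0) → x = 0

/-- The `n`-th iterate of the map given by the forms `f`. -/
noncomputable def iterate {N : ℕ} (f : Fin (N + 1) → MvPolynomial (Fin (N + 1)) ℂ) (n : ℕ) :
    (Fin (N + 1) → ℂ) → Fin (N + 1) → ℂ := (fun x i => eval x (f i))^[n]

/-- The return set of the point `a` to the closed set defined by the forms in `V`. -/
def ReturnSet {N : ℕ} (f : Fin (N + 1) → MvPolynomial (Fin (N + 1)) ℂ)
    (V : Set (MvPolynomial (Fin (N + 1)) ℂ)) (a : Fin (N + 1) → ℂ) : Set ℕ :=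
  {n | ∀ g ∈ V, eval (iterate f n a) g = 0}

/-- Finite unions of progressions and of finitely many sets `G j` with tower gaps: if `n < m` are
in the same set `G j`, then `m > c A ^ n`, where `A > 1` and `c > 0` are fixed. -/
def ProgressionsAndTowerGaps (S : Set ℕ) : Prop :=
  ∃ (T : Finset (ℕ × ℕ)) (A c : ℝ) (R : ℕ) (G : Fin R → Set ℕ), 1 < A ∧ 0 < c ∧
    S = {n | ∃ p ∈ T, ∃ m : ℕ, n = p.1 * m + p.2} ∪ ⋃ j, G j ∧
    ∀ j, ∀ n ∈ G j, ∀ m ∈ G j, n < m → c * A ^ n < m

/-- **Theorem.** (A) Let `Φ` be an endomorphism of the projective plane over `ℂ` of degree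
`d ≥ 2`. Every return set is the union of finitely many arithmetic progressions and of finitely
many sets with tower gaps.
(B) The same for endomorphisms `Φ` of `P^N` of degree `d ≥ 2`, all `N`, with algebraic
coefficients, algebraic points `a` such that `Φ ^ n (a)` is outside the critical locus for all
large `n`, and closed sets of dimension at most one. -/
theorem result :
    (∀ (d : ℕ) (f : Fin 3 → MvPolynomial (Fin 3) ℂ), Endomorphism 2 d f →
      ∀ a : Fin 3 → ℂ, a ≠ 0 → ∀ V : Set (MvPolynomial (Fin 3) ℂ),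
        (∀ g ∈ V, ∃ e : ℕ, g.IsHomogeneous e) →
          ProgressionsAndTowerGaps (ReturnSet (N := 2) f V a)) ∧
    (∀ (N d : ℕ) (f : Fin (N + 1) → MvPolynomial (Fin (N + 1)) ℂ), Endomorphism N d f →
      (∀ i m, IsAlgebraic ℚ ((f i).coeff m)) →
      ∀ a : Fin (N + 1) → ℂ, a ≠ 0 → (∀ i, IsAlgebraic ℚ (a i)) →
        (∃ n₀, ∀ n, n₀ ≤ n →
          (Matrix.of fun i j => eval (iterate f n a) (pderiv j (f i))).det ≠ 0) →
        ∀ V : Set (MvPolynomial (Fin (N + 1)) ℂ), (∀ g ∈ V, ∃ e : ℕ, g.IsHomogeneous e) →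
          ringKrullDim (MvPolynomial (Fin (N + 1)) ℂ ⧸ Ideal.span V) ≤ 2 →
            ProgressionsAndTowerGaps (ReturnSet f V a)) := by
  have key : ∀ S : Set ℕ, Pool.Agent.Helper33.SS.SGood S → ProgressionsAndTowerGaps S := by
    rintro S ⟨T, E, hE, rfl⟩
    obtain ⟨A, c, R, G, hA, hc, hG, hgap⟩ := Pool.Agent.Helper29.TG.exists_gaps hE
    exact ⟨T, A, c, R, G, hA, hc, by rw [hG]; rfl, hgap⟩
  refine ⟨fun d f hf a ha V hV => key _ ?_, fun N d f hf halg a ha haalg hJ V hV hdim => key _ ?_⟩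
  · obtain ⟨hd, hh, hnz⟩ := hf
    exact Pool.Agent.Helper29.TG.tower_plane ⟨hd, hh, hnz⟩ ha hV
  · obtain ⟨hd, hh, hnz⟩ := hf
    obtain ⟨n₀, hn₀⟩ := hJ
    refine Pool.Agent.Helper29.TG.sgood_algebraic N d hd f hh hnz halg a ha haalg n₀
      (fun n hn => ?_) V hV (Or.inr hdim)
    have h1 := hn₀ n hn
    have h2 : eval (iterate f n a) (Pool.Agent.Helper29.TG.jdet f) =
        (Matrix.of fun i j => eval (iterate f n a) (pderiv j (f i))).det := by
      unfold Pool.Agent.Helper29.TG.jdet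
      rw [RingHom.map_det]
      rfl
    have h3 : (Pool.Agent.Helper33.SS.ev f)^[n] a = iterate f n a := rfl
    rw [h3, h2]
    exact h1

end Pool.Agent.Helper29.TG.TowerGaps
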