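import Pool.Agent.Helper29.TG.Final
import Pool.Agent.Helper45.TG2.Final
import Pool.Agent.Helper28.PC.Hom

/-!
# Project TG2: tower gaps for endomorphisms of the plane over number fields
-/

set_option autoImplicit false

namespace Pool.Agent.Helper29.TG

open Height AdmissibleAbsValues MvPolynomial
open Pool.Agent.Helper33.SS
open Pool.Agent.Helper36 (iter iter_succ step growth APSet APSet_of_evClosed)

theorem two_irreducible {K : Type} [Field K] [NumberField K] [Algebra K ℂ] {d : ℕ} (hd : 2 ≤ d)
    (F : Fin 3 → MvPolynomial (Fin 3) K) (hF : ∀ i, (F i).IsHomogeneous d)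
    (hnz : ∀ x : Fin 3 → ℂ, (∀ i, aeval x (F i) = 0) → x = 0)
    (α : Fin 3 → K) (hα : α ≠ 0) {g : MvPolynomial (Fin 3) K} {e : ℕ} (hg : g.IsHomogeneous e)
    (hirr : Irreducible g) : SGood {n | eval (iter F α n) g = 0} := by
  classical
  set x : ℕ → Fin 3 → K := fun n => iter F α n with hxdef
  have hsucc : ∀ n, x (n + 1) = step F (x n) := fun n => iter_succ F α n
  have hevstep : ∀ z : Fin 3 → K, ev F z = step F z := by
    intro z
    funext i
    simp only [ev, step]
    rw [← aeval_eq_eval]
  have hadd : ∀ n l, x (n + l) = (ev F)^[l] (x n) := by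
    intro n l
    induction l with
    | zero => rfl
    | succ l ih => rw [← add_assoc, hsucc, ih, Function.iterate_succ_apply', hevstep]
  by_cases hinv : ∃ l, 1 ≤ l ∧ g ∣ aeval (itp F l) g
  · obtain ⟨l, hl, hdvd⟩ := hinv
    refine SGood.of_AP (APSet_of_evClosed hl (Set.finite_empty.subset ?_))
    rintro n ⟨hn1, hn2⟩
    apply hn2
    show eval (x (n + l)) g = 0
    obtain ⟨q, hq⟩ := hdvd
    have h1 : eval (x n) (aeval (itp F l) g) = eval ((ev F)^[l] (x n)) g := by
      rw [← ev_itp, ← aeval_eq_eval, ← aeval_eq_eval]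
      change (aeval (x n)) (aeval (itp F l) g) = aeval (ev (itp F l) (x n)) g
      rw [← AlgHom.comp_apply, comp_aeval]
      congr 2
    rw [hadd, ← h1, hq, map_mul]
    have h2 : eval (x n) g = 0 := hn1
    rw [h2, zero_mul]
  push Not at hinv
  set f : Fin 3 → MvPolynomial (Fin 3) ℂ := fun i => MvPolynomial.map (algebraMap K ℂ) (F i)
    with hf
  have hinj : Function.Injective (algebraMap K ℂ) := FaithfulSMul.algebraMap_injective K ℂ
  have hset : ∀ n, eval (x n) g = 0 ↔ InZ {MvPolynomial.map (algebraMap K ℂ) g}
      (fun j => algebraMap K ℂ (x n j)) := by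
    intro n
    have h1 : eval (fun j => algebraMap K ℂ (x n j)) (MvPolynomial.map (algebraMap K ℂ) g) =
        algebraMap K ℂ (eval (x n) g) := by
      rw [eval_map]
      exact (eval₂_comp (algebraMap K ℂ) (x n) g).symm
    constructor
    · rintro h _ rfl
      rw [h1, h, map_zero]
    · intro h
      have h2 := h _ rfl
      rw [h1] at h2
      exact (map_eq_zero_iff _ hinj).1 h2
  have horb : ∀ n, (ev f)^[n] (fun j => algebraMap K ℂ (α j)) = fun j => algebraMap K ℂ (x n j) := by
    intro n
    have h1 := ev_iterate_map (algebraMap K ℂ) F n α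
    rw [h1]
    have h2 := hadd 0 n
    rw [zero_add] at h2
    rw [h2]
    rfl
  have hmain := sgood_of_sparse_parts (N := 2) f (fun i => (hF i).map _)
    (fun z hz => hnz z fun i => by
      have := hz i
      rw [hf] at this
      simp only [eval_map] at this
      rw [aeval_def]
      exact this)
    (fun j => algebraMap K ℂ (α j)) (fun h => hα (by
      funext j
      apply hinj
      have := congrFun h j
      simpa using this)) {MvPolynomial.map (algebraMap K ℂ) g}
    (by rintro _ rfl; exact ⟨e, hg.map _⟩) (fun hnp hdim W hW hWV hfin => ?_) (Or.inl le_rfl)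
  · have h1 : {n | eval (iter F α n) g = 0} =
        {n | InZ {MvPolynomial.map (algebraMap K ℂ) g} ((ev f)^[n] fun j => algebraMap K ℂ (α j))} := by
      ext n
      simp only [Set.mem_ofPred_eq]
      rw [horb]
      exact hset n
    rw [h1]
    exact hmain
  · -- a set with finitely many periodic points
    have hx : ∀ n, x n ≠ 0 := by
      intro n
      induction n with
      | zero => exact hα
      | succ n ih =>
        rw [hsucc]
        exact step_ne_zero' (ν := 2) F hnz ih
    have hcr : ∀ n m, n ≠ m → cr (x n) (x m) ≠ 0 := by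
      have h0 : ∀ n m, n < m → cr (x n) (x m) ≠ 0 := by
        intro n m hnm h
        obtain ⟨c, hc, h1⟩ := pEq_of_cr (hx n) (hx m) h
        apply hnp n (m - n) (by omega) (algebraMap K ℂ c)
        rw [show n + (m - n) = m by omega, horb, horb, h1]
        funext j
        simp
      intro n m hnm h
      rcases lt_or_gt_of_ne hnm with h1 | h1
      · exact h0 n m h1 h
      · refine h0 m n h1 ?_
        funext q
        have := congrFun h q
        simp only [cr, Pi.zero_apply] at this ⊢
        linear_combination -this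
    by_cases hSf : {n | InZ W ((ev f)^[n] fun j => algebraMap K ℂ (α j))}.Finite
    · exact Sparse.of_finite hSf
    have hinf : {n | eval (x n) g = 0}.Infinite := by
      refine Set.Infinite.mono ?_ hSf
      intro n hn
      show eval (x n) g = 0
      rw [hset, ← horb]
      exact hWV _ hn
    obtain ⟨B, hB, hBgood⟩ := exists_good_reduction (ν := 2) F hF hnz
    obtain ⟨v, hv, hvB, i, n, hin, hct, c, hc1, hc2, hadj⟩ :=
      Pool.Agent.Helper45.TG2.exists_not_nilpotent hd F hF hnz hx
      hsucc hcr hg hirr hinv hinf hB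
    obtain ⟨h2, hint, hgood⟩ := hBgood v hv hvB
    have hres := Pool.Agent.Helper88.TL.sparse_of_place_adj (ν := 2) v hv h2 F d hd hF hint
      hgood x hx
      (fun n => ⟨1, one_ne_zero, by rw [one_smul, hsucc, ← hevstep]; rfl⟩) hcr i n hin hct
      c hc1 hc2 hadj W hW hfin
    refine hres.mono fun n hn => ?_
    show InZ W _
    rw [← horb]
    exact hn

/-- all forms over a number field -/
theorem two_form {K : Type} [Field K] [NumberField K] [Algebra K ℂ] {d : ℕ} (hd : 2 ≤ d)
    (F : Fin 3 → MvPolynomial (Fin 3) K) (hF : ∀ i, (F i).IsHomogeneous d)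
    (hnz : ∀ x : Fin 3 → ℂ, (∀ i, aeval x (F i) = 0) → x = 0)
    (α : Fin 3 → K) (hα : α ≠ 0) {g : MvPolynomial (Fin 3) K} {e : ℕ} (hg : g.IsHomogeneous e) :
    SGood {n | eval (iter F α n) g = 0} := by
  classical
  by_cases hg0 : g = 0
  · have h1 : {n | eval (iter F α n) g = 0} = Set.univ := by
      rw [Set.eq_univ_iff_forall]
      intro n
      show eval (iter F α n) g = 0
      rw [hg0, map_zero]
    rw [h1]
    exact sgood_univ
  obtain ⟨u, hu⟩ := UniqueFactorizationMonoid.factors_prod hg0
  have h1 : {n | eval (iter F α n) g = 0} =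
      {n | ∃ q ∈ (UniqueFactorizationMonoid.factors g).toFinset,
        n ∈ {n | eval (iter F α n) q = 0}} := by
    ext n
    simp only [Set.mem_ofPred_eq, Multiset.mem_toFinset]
    have hu0 : eval (iter F α n) (u : MvPolynomial (Fin 3) K) ≠ 0 :=
      (u.isUnit.map (eval (iter F α n))).ne_zero
    constructor
    · intro h
      rw [← hu, map_mul, mul_eq_zero] at h
      have h2 := h.resolve_right hu0
      rw [map_multiset_prod, Multiset.prod_eq_zero_iff, Multiset.mem_map] at h2
      exact h2
    · rintro ⟨q, hq, h⟩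
      rw [← hu, map_mul, map_multiset_prod]
      rw [Multiset.prod_eq_zero (Multiset.mem_map.2 ⟨q, hq, h⟩), zero_mul]
  rw [h1]
  refine sgood_finset_union _ fun q hq => ?_
  rw [Multiset.mem_toFinset] at hq
  have hqirr := UniqueFactorizationMonoid.irreducible_of_factor q hq
  have hqdvd : q ∣ g := UniqueFactorizationMonoid.dvd_of_mem_factors hq
  obtain ⟨e', he'⟩ := Pool.Agent.Helper28.PC.isHomogeneous_of_dvd hg hg0 hqdvd
  exact two_irreducible hd F hF hnz α hα he' hqirr

/-- **Theorem TG2.** Algebraic endomorphisms of the plane, all algebraic points. -/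
theorem two_algebraic {d : ℕ} (hd : 2 ≤ d) (f : Fin 3 → MvPolynomial (Fin 3) ℂ)
    (hf : ∀ i, (f i).IsHomogeneous d)
    (hnz : ∀ x : Fin 3 → ℂ, (∀ i, eval x (f i) = 0) → x = 0)
    (hfalg : ∀ i m, IsAlgebraic ℚ ((f i).coeff m))
    (a : Fin 3 → ℂ) (ha : a ≠ 0) (haalg : ∀ i, IsAlgebraic ℚ (a i))
    (g : MvPolynomial (Fin 3) ℂ) {e : ℕ} (hg : g.IsHomogeneous e)
    (hgalg : ∀ m, IsAlgebraic ℚ (g.coeff m)) : SGood {n | eval (iter f a n) g = 0} := by
  classical
  obtain ⟨K, _, _, _, G, α, hGf, hαa⟩ := exists_model
    (fun i : Option (Fin 3) => i.elim g f) (by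
      intro i m
      cases i with
      | none => exact hgalg m
      | some i => exact hfalg i m) a haalg
  have hinj : Function.Injective (algebraMap K ℂ) := FaithfulSMul.algebraMap_injective K ℂ
  have hFf : ∀ i, MvPolynomial.map (algebraMap K ℂ) (G (some i)) = f i := fun i => hGf (some i)
  have hGg : MvPolynomial.map (algebraMap K ℂ) (G none) = g := hGf none
  have hF : ∀ i, (G (some i)).IsHomogeneous d := fun i =>
    MvPolynomial.IsHomogeneous.of_map hinj (by rw [hFf]; exact hf i)
  have hgK : (G none).IsHomogeneous e := MvPolynomial.IsHomogeneous.of_map hinj (by rw [hGg]; exact hg)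
  have haev : ∀ (x : Fin 3 → ℂ) i, aeval x (G (some i)) = eval x (f i) := by
    intro x i
    rw [← hFf i, eval_map, aeval_def]
  have hiter : ∀ n, iter f a n = fun i => algebraMap K ℂ (iter (fun i => G (some i)) α n i) := by
    intro n
    induction n with
    | zero =>
      funext i
      exact (hαa i).symm
    | succ n ih =>
      rw [iter_succ, ih]
      funext i
      rw [iter_succ]
      show aeval _ (f i) = _
      rw [aeval_eq_eval, ← haev]
      exact aeval_algebraMap_apply (A := K) (B := ℂ) (iter (fun i => G (some i)) α n) (G (some i))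
  have hα : α ≠ 0 := by
    intro h
    apply ha
    funext i
    rw [← hαa i, h, Pi.zero_apply, map_zero, Pi.zero_apply]
  have h1 : {n | eval (iter f a n) g = 0} =
      {n | eval (iter (fun i => G (some i)) α n) (G none) = 0} := by
    ext n
    simp only [Set.mem_ofPred_eq]
    rw [hiter, ← hGg, eval_map]
    have h2 := eval₂_comp (algebraMap K ℂ) (iter (fun i => G (some i)) α n) (G none)
    constructor
    · intro h
      apply hinj
      rw [map_zero, h2]
      exact h
    · intro h
      rw [h, map_zero] at h2
      exact h2.symm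
  rw [h1]
  exact two_form hd _ hF (fun x hx => hnz x fun i => by rw [← haev]; exact hx i) α hα hgK

end Pool.Agent.Helper29.TG
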