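import Pool.Agent.Helper29.TG.CtSum
import Pool.Agent.Helper29.TG.Df

/-!
# Project TG: contact of the points of the plane curve and of the given points
(module of helper99)
-/

set_option autoImplicit false

namespace Pool.Agent.Helper29.TG

open Height AdmissibleAbsValues MvPolynomial

variable {K : Type} [Field K] {ν : ℕ}

/-- The point of the plane with coordinates the values of three linear forms. -/
def pl (a : Fin 3 → Fin (ν + 1) → K) (x : Fin (ν + 1) → K) : Fin 3 → K := fun j => lin (a j) x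

/-- A monomial of positive degree has a variable. -/
theorem wedge_single {ι : Type} {m : ι →₀ ℕ} {e : ℕ} (hm : m.degree = e + 1) :
    ∃ (i : ι) (m' : ι →₀ ℕ), m = m' + Finsupp.single i 1 ∧ m'.degree = e := by
  classical
  obtain ⟨i, hi⟩ : ∃ i, m i ≠ 0 := by
    by_contra hcon
    push Not at hcon
    have : m = 0 := Finsupp.ext hcon
    rw [this] at hm
    simp at hm
  have h1 : Finsupp.single i 1 ≤ m := by
    rw [Finsupp.single_le_iff]
    omega
  refine ⟨i, m - Finsupp.single i 1, (tsub_add_cancel_of_le h1).symm, ?_⟩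
  have h2 : m.degree = (m - Finsupp.single i 1).degree + 1 := by
    conv_lhs => rw [← tsub_add_cancel_of_le h1]
    rw [map_add, Finsupp.degree_single]
  omega

/-- The value of a monomial. -/
def wmon {ι : Type} (y : ι → K) (m : ι →₀ ℕ) : K := m.prod fun i k => y i ^ k

theorem wmon_zero {ι : Type} (y : ι → K) : wmon y 0 = 1 := by
  unfold wmon
  exact Finsupp.prod_zero_index

theorem wmon_add_single {ι : Type} (y : ι → K) (m : ι →₀ ℕ) (i : ι) :
    wmon y (m + Finsupp.single i 1) = wmon y m * y i := by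
  classical
  unfold wmon
  have h1 : (m + Finsupp.single i 1).prod (fun i k => y i ^ k) =
      m.prod (fun i k => y i ^ k) * (Finsupp.single i 1).prod (fun i k => y i ^ k) :=
    Finsupp.prod_add_index' (h := fun i k => y i ^ k) (fun _ => pow_zero _)
      (fun _ _ _ => pow_add _ _ _)
  have h2 : (Finsupp.single i 1).prod (fun i k => y i ^ k) = y i := by
    rw [Finsupp.prod_single_index (h := fun i k => y i ^ k) (pow_zero _), pow_one]
  rw [h1, h2]

theorem wedge_expand {ι : Type} (P Q : MvPolynomial ι K) (y y' : ι → K) :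
    eval y P * eval y' Q - eval y Q * eval y' P =
      ∑ m ∈ P.support, ∑ n ∈ Q.support,
        P.coeff m * Q.coeff n * (wmon y m * wmon y' n - wmon y n * wmon y' m) := by
  have hev : ∀ (R : MvPolynomial ι K) (z : ι → K),
      eval z R = ∑ m ∈ R.support, R.coeff m * wmon z m := by
    intro R z
    rw [eval_eq]
    rfl
  rw [hev, hev, hev, hev, Finset.sum_mul_sum, Finset.sum_mul_sum,
    Finset.sum_comm (s := Q.support), ← Finset.sum_sub_distrib]
  refine Finset.sum_congr rfl fun m _ => ?_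
  rw [← Finset.sum_sub_distrib]
  refine Finset.sum_congr rfl fun n _ => ?_
  ring

theorem wedge_degree {ι : Type} {P : MvPolynomial ι K} {e : ℕ} (hP : P.IsHomogeneous e)
    {m : ι →₀ ℕ} (hm : m ∈ P.support) : m.degree = e := by
  have := hP (mem_support_iff.1 hm)
  rw [← this, Finsupp.degree_eq_weight_one]
  rfl

theorem wedge_sum_le {v : AbsoluteValue K ℝ} (hv : IsNonarchimedean v) {α : Type*}
    (s : Finset α) (f : α → K) {B : ℝ} (hB : 0 ≤ B) (h : ∀ a ∈ s, v (f a) ≤ B) :
    v (∑ a ∈ s, f a) ≤ B := by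
  classical
  induction s using Finset.induction_on with
  | empty => simpa using hB
  | insert a s ha ih =>
    rw [Finset.sum_insert ha]
    exact (hv _ _).trans (max_le (h a (Finset.mem_insert_self _ _))
      (ih fun b hb => h b (Finset.mem_insert_of_mem hb)))

theorem wmon_le (v : AbsoluteValue K ℝ) {ι : Type} [Finite ι] (y : ι → K) :
    ∀ (e : ℕ) (m : ι →₀ ℕ), m.degree = e → v (wmon y m) ≤ nm v y ^ e := by
  intro e
  induction e with
  | zero =>
    intro m hm
    have h0 : m = 0 := by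
      rwa [Finsupp.degree_eq_zero_iff] at hm
    rw [h0, wmon_zero, map_one, pow_zero]
  | succ e ih =>
    intro m hm
    obtain ⟨i, m', rfl, hm'⟩ := wedge_single hm
    rw [wmon_add_single, map_mul, pow_succ]
    exact mul_le_mul (ih m' hm') (le_nm v y i) (v.nonneg _) (pow_nonneg (nm_nonneg v y) _)

theorem wmon_wedge {v : AbsoluteValue K ℝ} (hv : IsNonarchimedean v) {ι : Type} [Finite ι]
    (y y' : ι → K) : ∀ (e : ℕ) (m n : ι →₀ ℕ), m.degree = e + 1 → n.degree = e + 1 →
      v (wmon y m * wmon y' n - wmon y n * wmon y' m) ≤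
        nm v (cr y y') * nm v y ^ e * nm v y' ^ e := by
  intro e
  induction e with
  | zero =>
    intro m n hm hn
    obtain ⟨i, m', rfl, hm'⟩ := wedge_single hm
    obtain ⟨j, n', rfl, hn'⟩ := wedge_single hn
    have h1 : m' = 0 := by rwa [Finsupp.degree_eq_zero_iff] at hm'
    have h2 : n' = 0 := by rwa [Finsupp.degree_eq_zero_iff] at hn'
    subst h1
    subst h2
    rw [wmon_add_single, wmon_add_single, wmon_add_single, wmon_add_single]
    rw [wmon_zero, wmon_zero, one_mul, one_mul, one_mul, one_mul, pow_zero, pow_zero, mul_one,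
      mul_one]
    exact le_nm v (cr y y') (i, j)
  | succ e ih =>
    intro m n hm hn
    obtain ⟨i, m', rfl, hm'⟩ := wedge_single hm
    obtain ⟨j, n', rfl, hn'⟩ := wedge_single hn
    rw [wmon_add_single, wmon_add_single, wmon_add_single, wmon_add_single]
    have h1 : wmon y m' * y i * (wmon y' n' * y' j) - wmon y n' * y j * (wmon y' m' * y' i) =
        wmon y m' * wmon y' n' * (y i * y' j - y j * y' i) +
          y j * y' i * (wmon y m' * wmon y' n' - wmon y n' * wmon y' m') := by ring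
    have hy := nm_nonneg v y
    have hy' := nm_nonneg v y'
    have hc := nm_nonneg v (cr y y')
    have h3 : v (y i * y' j - y j * y' i) ≤ nm v (cr y y') := le_nm v (cr y y') (i, j)
    rw [h1]
    refine (hv _ _).trans (max_le ?_ ?_)
    · rw [map_mul, map_mul]
      calc v (wmon y m') * v (wmon y' n') * v (y i * y' j - y j * y' i)
          ≤ nm v y ^ (e + 1) * nm v y' ^ (e + 1) * nm v (cr y y') :=
            mul_le_mul (mul_le_mul (wmon_le v y _ _ hm') (wmon_le v y' _ _ hn') (v.nonneg _)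
              (pow_nonneg hy _)) h3 (v.nonneg _)
              (mul_nonneg (pow_nonneg hy _) (pow_nonneg hy' _))
        _ = _ := by ring
    · rw [map_mul, map_mul]
      calc v (y j) * v (y' i) * v (wmon y m' * wmon y' n' - wmon y n' * wmon y' m')
          ≤ nm v y * nm v y' * (nm v (cr y y') * nm v y ^ e * nm v y' ^ e) :=
            mul_le_mul (mul_le_mul (le_nm v y j) (le_nm v y' i) (v.nonneg _) hy)
              (ih m' n' hm' hn') (v.nonneg _) (mul_nonneg hy hy')
        _ = _ := by ring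

theorem wmon_wedge_zero {ι : Type} {y y' : ι → K} (h : cr y y' = 0) :
    ∀ (e : ℕ) (m n : ι →₀ ℕ), m.degree = e → n.degree = e →
      wmon y m * wmon y' n = wmon y n * wmon y' m := by
  intro e
  induction e with
  | zero =>
    intro m n hm hn
    rw [Finsupp.degree_eq_zero_iff] at hm hn
    rw [hm, hn]
  | succ e ih =>
    intro m n hm hn
    obtain ⟨i, m', rfl, hm'⟩ := wedge_single hm
    obtain ⟨j, n', rfl, hn'⟩ := wedge_single hn
    rw [wmon_add_single, wmon_add_single, wmon_add_single, wmon_add_single]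
    have h1 := congrFun h (i, j)
    have h1' : y i * y' j - y j * y' i = 0 := h1
    have h2 := ih m' n' hm' hn'
    linear_combination (wmon y m' * wmon y' n') * h1' + y j * y' i * h2

theorem wedge_zero {ι : Type} {y y' : ι → K} (h : cr y y' = 0) {e : ℕ}
    {P Q : MvPolynomial ι K} (hP : P.IsHomogeneous e) (hQ : Q.IsHomogeneous e) :
    eval y P * eval y' Q - eval y Q * eval y' P = 0 := by
  rw [wedge_expand]
  refine Finset.sum_eq_zero fun m hm => Finset.sum_eq_zero fun n hn => ?_
  rw [wmon_wedge_zero h e m n (wedge_degree hP hm) (wedge_degree hQ hn), sub_self, mul_zero]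

/-- `|P(y) Q(y') - Q(y) P(y')| ≤ |y × y'| |y| ^ e |y'| ^ e` for forms of degree `e + 1` with
integral coefficients -/
theorem wedge_le {v : AbsoluteValue K ℝ} (hv : IsNonarchimedean v) {ι : Type} [Finite ι] {e : ℕ}
    {P Q : MvPolynomial ι K} (hP : P.IsHomogeneous (e + 1)) (hQ : Q.IsHomogeneous (e + 1))
    (hPc : CoeffInt v P) (hQc : CoeffInt v Q) (y y' : ι → K) :
    v (eval y P * eval y' Q - eval y Q * eval y' P) ≤ nm v (cr y y') * nm v y ^ e * nm v y' ^ e := by
  have hy := nm_nonneg v y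
  have hy' := nm_nonneg v y'
  have hc := nm_nonneg v (cr y y')
  have hB : 0 ≤ nm v (cr y y') * nm v y ^ e * nm v y' ^ e :=
    mul_nonneg (mul_nonneg hc (pow_nonneg hy _)) (pow_nonneg hy' _)
  rw [wedge_expand]
  refine wedge_sum_le hv _ _ hB fun m hm => wedge_sum_le hv _ _ hB fun n hn => ?_
  rw [map_mul, map_mul]
  have h1 := wmon_wedge hv y y' e m n (wedge_degree hP hm) (wedge_degree hQ hn)
  have h2 : v (coeff m P) * v (coeff n Q) ≤ 1 :=
    mul_le_one₀ (hPc m) (v.nonneg _) (hQc n)
  calc v (coeff m P) * v (coeff n Q) * v (wmon y m * wmon y' n - wmon y n * wmon y' m)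
      ≤ 1 * v (wmon y m * wmon y' n - wmon y n * wmon y' m) :=
        mul_le_mul_of_nonneg_right h2 (v.nonneg _)
    _ ≤ _ := by rw [one_mul]; exact h1

theorem nm_pl_le {v : AbsoluteValue K ℝ} (hv : IsNonarchimedean v)
    {a : Fin 3 → Fin (ν + 1) → K} (ha : ∀ j i, v (a j i) ≤ 1) (x : Fin (ν + 1) → K) :
    nm v (pl a x) ≤ nm v x := by
  refine nm_le (nm_nonneg v x) fun j => ?_
  unfold pl lin
  refine wedge_sum_le hv _ _ (nm_nonneg v x) fun i _ => ?_
  rw [map_mul]
  calc v (a j i) * v (x i) ≤ 1 * nm v x :=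
        mul_le_mul (ha j i) (le_nm v x i) (v.nonneg _) zero_le_one
    _ = _ := one_mul _

theorem pl_cross {a : Fin 3 → Fin (ν + 1) → K}
    {V : MvPolynomial (Fin 3) K} {P : Fin (ν + 1) → MvPolynomial (Fin 3) K}
    {x x' : Fin (ν + 1) → K}
    (h : ∀ j, x j * eval (pl a x) V = eval (pl a x) (P j))
    (h' : ∀ j, x' j * eval (pl a x') V = eval (pl a x') (P j)) (j l : Fin (ν + 1)) :
    cr x x' (j, l) * (eval (pl a x) V * eval (pl a x') V) =
      eval (pl a x) (P j) * eval (pl a x') (P l) - eval (pl a x) (P l) * eval (pl a x') (P j) := by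
  rw [← h, ← h, ← h', ← h']
  change (x j * x' l - x l * x' j) * _ = _
  ring

theorem cr_pl_ne_zero {a : Fin 3 → Fin (ν + 1) → K} {e : ℕ}
    {V : MvPolynomial (Fin 3) K} {P : Fin (ν + 1) → MvPolynomial (Fin 3) K}
    (hP : ∀ j, (P j).IsHomogeneous (e + 1))
    {x x' : Fin (ν + 1) → K} (hx : eval (pl a x) V ≠ 0) (hx' : eval (pl a x') V ≠ 0)
    (h : ∀ j, x j * eval (pl a x) V = eval (pl a x) (P j))
    (h' : ∀ j, x' j * eval (pl a x') V = eval (pl a x') (P j))
    (hc : cr x x' ≠ 0) : cr (pl a x) (pl a x') ≠ 0 := by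
  intro h0
  apply hc
  funext q
  obtain ⟨j, l⟩ := q
  have h1 := pl_cross h h' j l
  rw [wedge_zero h0 (hP j) (hP l)] at h1
  exact (mul_eq_zero.1 h1).resolve_right (mul_ne_zero hx hx')

/-- contact downstairs and upstairs -/
theorem ct_pl_le {v : AbsoluteValue K ℝ} (hv : IsNonarchimedean v)
    {a : Fin 3 → Fin (ν + 1) → K} (ha : ∀ j i, v (a j i) ≤ 1) {e : ℕ}
    {V : MvPolynomial (Fin 3) K} {P : Fin (ν + 1) → MvPolynomial (Fin 3) K}
    (hP : ∀ j, (P j).IsHomogeneous (e + 1)) (hPc : ∀ j, CoeffInt v (P j))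
    {x x' : Fin (ν + 1) → K} (hx : eval (pl a x) V ≠ 0) (hx' : eval (pl a x') V ≠ 0)
    (h : ∀ j, x j * eval (pl a x) V = eval (pl a x) (P j))
    (h' : ∀ j, x' j * eval (pl a x') V = eval (pl a x') (P j))
    (hc : cr x x' ≠ 0) :
    ct v (pl a x) (pl a x') ≤ ct v x x' + df v V e (pl a x) + df v V e (pl a x') := by
  have hcy := cr_pl_ne_zero hP hx hx' h h' hc
  have hy0 := left_ne_zero hcy
  have hy0' := right_ne_zero hcy
  have hV := v.pos hx
  have hV' := v.pos hx'
  have hny := nm_pos v hy0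
  have hny' := nm_pos v hy0'
  have hnc := nm_pos v hcy
  have hnx := nm_pos v hc
  obtain ⟨⟨j, l⟩, -, hq⟩ := exists_nm_eq v hc
  have h1 : nm v (cr x x') * (v (eval (pl a x) V) * v (eval (pl a x') V)) ≤
      nm v (cr (pl a x) (pl a x')) * nm v (pl a x) ^ e * nm v (pl a x') ^ e := by
    rw [hq, ← map_mul, ← map_mul, pl_cross h h' j l]
    exact wedge_le hv (hP j) (hP l) (hPc j) (hPc l) _ _
  have h2 := Real.log_le_log (mul_pos hnx (mul_pos hV hV')) h1
  rw [Real.log_mul hnx.ne' (mul_pos hV hV').ne', Real.log_mul hV.ne' hV'.ne',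
    Real.log_mul (mul_pos hnc (pow_pos hny _)).ne' (pow_pos hny' _).ne',
    Real.log_mul hnc.ne' (pow_pos hny _).ne', Real.log_pow, Real.log_pow] at h2
  have h3 := Real.log_le_log hny (nm_pl_le hv ha x)
  have h4 := Real.log_le_log hny' (nm_pl_le hv ha x')
  unfold ct df
  linarith

theorem exists_logHeight_le_pl [AdmissibleAbsValues K] (a : Fin 3 → Fin (ν + 1) → K) {e : ℕ}
    (V : MvPolynomial (Fin 3) K) {P : Fin (ν + 1) → MvPolynomial (Fin 3) K}
    (hP : ∀ j, (P j).IsHomogeneous (e + 1)) :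
    ∃ C : ℝ, ∀ x : Fin (ν + 1) → K, x ≠ 0 → eval (pl a x) V ≠ 0 →
      (∀ j, x j * eval (pl a x) V = eval (pl a x) (P j)) →
        pl a x ≠ 0 ∧ logHeight x ≤ (e + 1) * logHeight (pl a x) + C := by
  obtain ⟨C, hC⟩ := logHeight_eval_le' hP
  refine ⟨C, fun x hx hV h => ⟨?_, ?_⟩⟩
  · intro h0
    apply hx
    funext j
    have h1 := h j
    rw [h0] at h1 hV
    have h2 : eval (0 : Fin 3 → K) (P j) = 0 := by
      rw [eval_zero, constantCoeff_eq]
      exact (hP j).coeff_eq_zero (by simp)
    rw [h2] at h1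
    exact (mul_eq_zero.1 h1).resolve_right hV
  · have h1 := hC (pl a x)
    have h2 : (fun j => eval (pl a x) (P j)) = eval (pl a x) V • x := by
      funext j
      rw [← h j, Pi.smul_apply, smul_eq_mul, mul_comm]
    rw [h2, logHeight_smul_eq_logHeight x hV] at h1
    push_cast at h1
    linarith

theorem exists_logHeight_pl_le [AdmissibleAbsValues K] (a : Fin 3 → Fin (ν + 1) → K) :
    ∃ C : ℝ, ∀ x : Fin (ν + 1) → K, pl a x ≠ 0 → logHeight (pl a x) ≤ logHeight x + C := by
  have hp : ∀ j : Fin 3, (∑ i, C (a j i) * X i : MvPolynomial (Fin (ν + 1)) K).IsHomogeneous 1 := by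
    intro j
    refine IsHomogeneous.sum _ _ _ fun i _ => ?_
    have h1 := (isHomogeneous_C (σ := Fin (ν + 1)) (a j i)).mul (isHomogeneous_X K i)
    rwa [zero_add] at h1
  obtain ⟨C', hC⟩ := logHeight_eval_le' hp
  refine ⟨C', fun x _ => ?_⟩
  have h1 := hC x
  have h2 : (fun j => eval x (∑ i, C (a j i) * X i : MvPolynomial (Fin (ν + 1)) K)) = pl a x := by
    funext j
    unfold pl lin
    simp
  rw [h2] at h1
  push_cast at h1
  linarith

end Pool.Agent.Helper29.TG
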